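import Pool.Agent.H.MP_c3079b_lc.G

namespace Pool.Agent.H.MP_c3079b_lc
open Pool.Agent.Lib.CX

set_option synthInstance.maxSize 4000

variable {A α : Type} [Enc A] [Enc α] [DecidableEq α]

omit [Enc α] [DecidableEq α] in
@[fun_prop] theorem pb_ite {c : A → Prop} {i : ∀ a, Decidable (c a)} {f g : A → ℕ} (hf : PB f) (hg : PB g) :
    PB fun a => @ite _ (c a) (i a) (f a) (g a) := (hf.add hg).mono fun a => by split_ifs <;> omega

@[fun_prop] theorem pt_fact {n : A → ℕ} (h : PT n) (b : PB n) : PT fun a => (n a).factorial :=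
  (show PT fun a => ((List.range (n a)).map (· + 1)).prod by fun_prop).congr fun a => by
    induction n a with
    | zero => rfl
    | succ k ih => rw [List.prod_range_succ, ← ih, Nat.factorial_succ, mul_comm]

theorem pt_choose {n k : A → ℕ} (h : PT n) (b : PB n) (h' : PT k) : PT fun a => (n a).choose (k a) := by
  have : PB fun a => min (k a) (n a) := b.min_right
  have : PB fun a => n a - k a := b.sub
  refine (show PT fun a => if k a ≤ n a then (n a).factorial / ((min (k a) (n a)).factorial * (n a - k a).factorial)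
    else 0 by fun_prop).congr fun a => ?_
  split_ifs with q
  · rw [min_eq_left q, Nat.choose_eq_factorial_div_factorial q]
  · rw [Nat.choose_eq_zero_of_lt (by omega)]

theorem pt_mult (z : α) : PT fun p : (List α × List α × ℕ × ℕ) × ℕ × (α × ℕ) × (α × ℕ) =>
    List.replicate (mult p.1.1 p.1.2.1 z p.1.2.2.1 p.1.2.2.2 p.2) p.2 := by
  unfold mult mA mS absE sgE absG sgG zz DD
  fun_prop

theorem pt_gr (z : α) {ul sl : A → List α} {eN : A → α × ℕ → α} {i t : A → ℕ} (h1 : PT ul) (h2 : PT sl)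
    (h3 : PT fun p : A × (α × ℕ) => eN p.1 p.2) (h4 : PT i) (h5 : PT t) :
    PT fun a => gr (ul a) (sl a) z (eN a) (i a) (t a) := by
  have hv : PT fun a => vs (ul a) (sl a) z := by unfold vs; fun_prop
  have he : PT fun p : A × ℕ × (α × ℕ) × (α × ℕ) => eN p.1 p.2.2.1 :=
    h3.comp (g := fun p : A × ℕ × (α × ℕ) × (α × ℕ) => (p.1, p.2.2.1)) (by fun_prop)
  refine PT.mkGr hv (PT.map (F := fun a => ends (eN a)) ?_ (PT.flatMap ((pt_mult z).comp
    (g := fun p : A × ℕ × (α × ℕ) × (α × ℕ) => ((ul p.1, sl p.1, i p.1, t p.1), p.2)) (by fun_prop)) (by fun_prop)))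
  unfold ends
  exact PT.ite (by fun_prop) (PT.pair (by fun_prop) (he.pair (by fun_prop))) (by fun_prop)

theorem pt_qs : PT fun p : List α × List α => qs p.1 p.2 := by unfold qs DD NN; fun_prop

theorem pt_post : PT fun p : (List α × List α) × List ℕ => post p.1.1 p.1.2 p.2 := by
  have h1 : PT fun p : ((List α × List α) × List ℕ) × (ℕ × ℕ) × ℕ => (DD p.1.1.1 p.1.1.2).choose p.2.1.1 :=
    pt_choose (by unfold DD; fun_prop) (by unfold DD; fun_prop) (by fun_prop)
  have h2 : PT fun p : ((List α × List α) × List ℕ) × (ℕ × ℕ) × ℕ =>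
      (NN p.1.1.1 p.1.1.2 + 1).choose (p.2.1.2 + 1) :=
    pt_choose (by unfold NN; fun_prop) (by unfold NN; fun_prop) (by fun_prop)
  refine PT.div (PT.natAbs (PT.isum (PT.zipWith ?_ (pt_qs.comp PT.fst') PT.snd'))) (by unfold KK zz DD; fun_prop)
  unfold cf
  exact PT.imul (PT.imul (by unfold DD; fun_prop) (h1.mul h2).natCast) (by fun_prop)

theorem pt_uL : PT (uL (V := α)) := by unfold uL cells vr pick Cl3.vars; fun_prop
omit [DecidableEq α] in
theorem pt_sL : PT (sL (V := α)) := by unfold sL cells sg bit pick Cl3.vars; fun_prop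
theorem pt_eL : PT fun p : List (Cl3 α) × (Nm α × ℕ) => eL p.1 p.2 := by unfold eL vr bit nx pick; fun_prop

end Pool.Agent.H.MP_c3079b_lc
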