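import Mathlib

namespace Pool.Agent.H.MP_c3079b_lc
open Finset

noncomputable def ch (w : ℚ) (k : ℕ) : ℚ := (∏ i ∈ range k, (w - i)) / k.factorial

@[simp] theorem ch_zero (w : ℚ) : ch w 0 = 1 := by simp [ch]

theorem ch_succ (w : ℚ) (k : ℕ) : (k + 1 : ℚ) * ch w (k + 1) = w * ch (w - 1) k := by
  unfold ch
  rw [prod_range_succ', Nat.factorial_succ]
  have : ∏ i ∈ range k, (w - ((i + 1 : ℕ) : ℚ)) = ∏ i ∈ range k, (w - 1 - i) :=
    prod_congr rfl fun i _ => by push_cast; ring
  rw [this]; push_cast; field_simp; simp [mul_comm]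

@[simp] theorem ch_one (w : ℚ) : ch w 1 = w := by simp [ch]

theorem ch_nat (k : ℕ) : ∀ n : ℕ, ch n k = n.choose k := by
  induction k with
  | zero => simp
  | succ k ih =>
    intro n
    have h : (k + 1 : ℚ) ≠ 0 := by positivity
    apply mul_left_cancel₀ h
    rw [ch_succ]
    cases n with
    | zero => simp
    | succ n =>
      have := congrArg (Nat.cast : ℕ → ℚ) (Nat.add_one_mul_choose_eq n k)
      push_cast at this ⊢
      rw [add_sub_cancel_right, ih, this]; ring

variable {Y Λ : Type} [Fintype Y] [DecidableEq Y] [DecidableEq Λ]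

def Conn (c : Y → Λ) (k : Y × Y → ℕ) : Prop :=
  ∀ S : Y → Prop, (∀ y y', c y = c y' → (S y ↔ S y')) → (∀ e, k e ≠ 0 → (S e.1 ↔ S e.2)) → ∀ y y', S y ↔ S y'

open Classical in
noncomputable def Kt (m : ℕ) (c : Y → Λ) (W : Y × Y → ℚ) : ℚ :=
  ∑ k ∈ piAntidiag univ m, if Conn c k then ∏ e, ch (W e) (k e) else 0

def ctr (c : Y → Λ) (a b : Λ) : Y → Λ := fun y => if c y = b then a else c y

omit [Fintype Y] [DecidableEq Y] in
theorem ctr_inv (c : Y → Λ) (x x' : Y) (S : Y → Prop) :
    (∀ y y', ctr c (c x) (c x') y = ctr c (c x) (c x') y' → (S y ↔ S y')) ↔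
      (∀ y y', c y = c y' → (S y ↔ S y')) ∧ (S x ↔ S x') := by
  unfold ctr
  constructor
  · intro h
    exact ⟨fun y y' e => h y y' (by rw [e]), h x x' (by simp)⟩
  · rintro ⟨h, g⟩ y y' e
    have := h y x'
    have := h y' x'
    have := h y x
    have := h y' x
    have := h y y'
    grind

omit [Fintype Y] in
theorem conn_add (c : Y → Λ) (k : Y × Y → ℕ) (e : Y × Y) :
    Conn c (k + Pi.single e 1) ↔ Conn (ctr c (c e.1) (c e.2)) k := by
  unfold Conn
  refine forall_congr' fun S => ?_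
  rw [ctr_inv]
  have : (∀ x, (k + Pi.single e 1 : Y × Y → ℕ) x ≠ 0 → (S x.1 ↔ S x.2)) ↔
      (S e.1 ↔ S e.2) ∧ ∀ x, k x ≠ 0 → (S x.1 ↔ S x.2) := by
    constructor
    · intro h
      exact ⟨h e (by simp), fun x hx => h x (by simp [hx])⟩
    · rintro ⟨h, g⟩ x hx
      by_cases q : x = e
      · rw [q]; exact h
      · exact g x (by simpa [q] using hx)
  rw [this]
  exact ⟨fun h a b => h a.1 ⟨a.2, b⟩, fun h a b => h ⟨a, b.1⟩ b.2⟩

theorem Kt_succ (m : ℕ) (c : Y → Λ) (W : Y × Y → ℚ) :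
    (m + 1 : ℚ) * Kt (m + 1) c W = ∑ e, W e * Kt m (ctr c (c e.1) (c e.2)) (W - Pi.single e 1) := by
  classical
  unfold Kt
  have : ∀ k ∈ piAntidiag (univ : Finset (Y × Y)) (m + 1), ∀ t : ℚ, (m + 1 : ℚ) * t = ∑ e, (k e : ℚ) * t :=
    fun k hk t => by
      rw [← sum_mul, ← Nat.cast_sum, (mem_piAntidiag.1 hk).1]; push_cast; rfl
  rw [mul_sum, sum_congr rfl fun k hk => this k hk _, sum_comm]
  refine sum_congr rfl fun e _ => ?_
  rw [mul_sum]
  refine (sum_of_injOn (fun k => k + Pi.single e 1) (fun a _ b _ h => add_right_cancel h) (fun k hk => ?_)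
    (fun k hk h => ?_) fun k hk => ?_).symm
  · simp only [mem_piAntidiag, mem_univ, implies_true, and_true, mem_coe] at hk ⊢
    simp [sum_add_distrib, hk]
  · by_cases q : k e = 0
    · simp [q]
    refine absurd ⟨k - Pi.single e 1, ?_, ?_⟩ h
    · simp only [mem_piAntidiag, mem_univ, implies_true, and_true, mem_coe] at hk ⊢
      have : ∑ x, k x = ∑ x, ((k - Pi.single e 1 : Y × Y → ℕ) x + (Pi.single e 1 : Y × Y → ℕ) x) :=
        sum_congr rfl fun x _ => by
          by_cases r : x = e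
          · subst r; simp; omega
          · simp [r]
      rw [sum_add_distrib, hk] at this
      simp at this ⊢
      omega
    · ext x
      by_cases r : x = e
      · subst r; simp; omega
      · simp [r]
  · simp only [conn_add]
    split_ifs
    · rw [Fintype.prod_eq_mul_prod_compl e, Fintype.prod_eq_mul_prod_compl e, ← mul_assoc, ← mul_assoc]
      congr 1
      · simp [ch_succ]
      · exact prod_congr rfl fun x hx => by
          have : x ≠ e := by simpa using hx
          simp [this]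
    · simp

def eta (ε : Y → ℚ) (c : Y → Λ) (l : Λ) : ℚ := ∑ y with c y = l, ε y

omit [DecidableEq Y] in
theorem fib (ε : Y → ℚ) (c : Y → Λ) (H : Λ → ℚ) :
    ∑ y, ε y * H (c y) = ∑ a ∈ univ.image c, eta ε c a * H a := by
  rw [← sum_fiberwise_of_maps_to (t := univ.image c) (g := c) fun y _ => mem_image_of_mem _ (mem_univ y)]
  refine sum_congr rfl fun a _ => ?_
  rw [eta, sum_mul]
  exact sum_congr rfl fun y hy => by rw [(mem_filter.1 hy).2]

theorem Kt_dec (ε : Y → ℚ) (φ : ℚ) (m : ℕ) (c : Y → Λ) (W : Y × Y → ℚ)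
    (hW : ∀ y y', c y ≠ c y' → W (y, y') = φ * ε y * ε y') (G : Λ → Λ → ℚ) (v : ℚ)
    (h1 : ∀ y y', c y ≠ c y' → Kt m (ctr c (c y) (c y')) (W - Pi.single (y, y') 1) = G (c y) (c y'))
    (h2 : ∀ y y', c y = c y' → Kt m c (W - Pi.single (y, y') 1) = v) :
    (m + 1 : ℚ) * Kt (m + 1) c W = φ * (∑ b ∈ univ.image c, ∑ a ∈ (univ.image c).erase b,
      eta ε c a * eta ε c b * (G a b - v)) + v * ∑ e, W e := by
  rw [Kt_succ]
  have : ∀ e : Y × Y, W e * Kt m (ctr c (c e.1) (c e.2)) (W - Pi.single e 1) =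
      φ * (ε e.2 * (ε e.1 * if c e.1 ≠ c e.2 then G (c e.1) (c e.2) - v else 0)) + v * W e := fun (y, y') => by
    by_cases q : c y = c y'
    · have : ctr c (c y) (c y') = c := funext fun x => by unfold ctr; grind
      simp only [this, h2 y y' q]; simp [mul_comm, q]
    · simp only [h1 y y' q, hW y y' q, ne_eq, q]; simp; ring
  rw [sum_congr rfl fun e _ => this e, sum_add_distrib, ← mul_sum, ← mul_sum, Fintype.sum_prod_type_right]
  congr 2
  simp only [← mul_sum]
  have := fib ε c fun b => ∑ y, ε y * if c y ≠ b then G (c y) b - v else 0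
  rw [this]
  refine sum_congr rfl fun b _ => ?_
  rw [fib ε c fun a => if a ≠ b then G a b - v else 0, ← filter_ne', sum_filter, mul_sum]
  exact sum_congr rfl fun a _ => by split_ifs <;> ring

omit [DecidableEq Y] in
theorem im_ctr (c : Y → Λ) (x x' : Y) (h : c x ≠ c x') :
    univ.image (ctr c (c x) (c x')) = (univ.image c).erase (c x') := by
  ext l
  simp only [mem_image, mem_univ, true_and, mem_erase, ctr]
  constructor
  · rintro ⟨y, rfl⟩
    split_ifs with q
    exacts [⟨h, x, rfl⟩, ⟨q, y, rfl⟩]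
  · rintro ⟨q, y, rfl⟩
    exact ⟨y, if_neg q⟩

omit [DecidableEq Y] in
theorem prod_ctr (ε : Y → ℚ) (c : Y → Λ) (x x' : Y) (h : c x ≠ c x') (g : ℚ → ℚ) :
    ∏ l ∈ (univ.image c).erase (c x'), g (eta ε (ctr c (c x) (c x')) l) =
      g (eta ε c (c x) + eta ε c (c x')) * ∏ l ∈ ((univ.image c).erase (c x')).erase (c x), g (eta ε c l) := by
  rw [← mul_prod_erase _ _ (mem_erase.2 ⟨h, mem_image_of_mem _ (mem_univ x)⟩)]
  congr 1
  · simp only [eta, sum_filter, ← sum_add_distrib, ctr]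
    exact congrArg g (sum_congr rfl fun y _ => by grind)
  · refine prod_congr rfl fun l hl => congrArg g ?_
    simp only [mem_erase] at hl
    simp only [eta, sum_filter, ctr]
    exact sum_congr rfl fun y _ => by grind

theorem alg1 (L : Finset Λ) (η : Λ → ℚ) (h : ∑ l ∈ L, η l = 0) :
    ∑ b ∈ L, ∑ a ∈ L.erase b, η a * η b * ((η a + η b) * ∏ l ∈ (L.erase b).erase a, η l) = 0 := by
  have : ∀ b ∈ L, ∑ a ∈ L.erase b, η a * η b * ((η a + η b) * ∏ l ∈ (L.erase b).erase a, η l) =
      (∏ l ∈ L, η l) * ((#L - 2) * η b) := fun b hb => by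
    have e : ∑ a ∈ L.erase b, (η a + η b) = (#L - 2) * η b := by
      have := add_sum_erase L η hb
      rw [sum_add_distrib, sum_const, card_erase_of_mem hb, nsmul_eq_mul, Nat.cast_pred (card_pos.2 ⟨b, hb⟩)]
      linarith
    rw [← e, mul_sum]
    exact sum_congr rfl fun a ha => by rw [← mul_prod_erase L η hb, ← mul_prod_erase _ η ha]; ring
  rw [sum_congr rfl this, ← mul_sum, ← mul_sum, h]; simp

theorem alg2 (L : Finset Λ) (η : Λ → ℚ) (h : ∑ l ∈ L, η l = 0) :
    ∑ b ∈ L, ∑ a ∈ L.erase b, η a * η b * ((η a + η b) ^ 2 * ∏ l ∈ (L.erase b).erase a, η l ^ 2) =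
      2 * #L * (#L - 2) * ∏ l ∈ L, η l ^ 2 := by
  have k : ∑ b ∈ L, ∑ a ∈ L.erase b, η a * η b * (η a ^ 2 * ∏ l ∈ (L.erase b).erase a, η l ^ 2) =
      -#L * ∏ l ∈ L, η l ^ 2 := by
    rw [neg_mul, ← nsmul_eq_mul, ← sum_const, ← sum_neg_distrib]
    refine sum_congr rfl fun b hb => ?_
    have := add_sum_erase L η hb
    rw [sum_congr rfl fun a ha => by rw [mul_prod_erase _ (fun l => η l ^ 2) ha], ← sum_mul, ← sum_mul,
      ← mul_prod_erase L _ hb, show ∑ a ∈ L.erase b, η a = -η b by linarith]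
    ring
  have k2 : ∑ b ∈ L, ∑ a ∈ L.erase b, η a * η b * (η b ^ 2 * ∏ l ∈ (L.erase b).erase a, η l ^ 2) =
      -#L * ∏ l ∈ L, η l ^ 2 := by
    rw [← k, sum_comm' (t' := L) (s' := fun a => L.erase a) (by simp only [mem_erase]; grind)]
    exact sum_congr rfl fun a _ => sum_congr rfl fun b _ => by rw [erase_right_comm]; ring
  have k3 : ∑ b ∈ L, ∑ a ∈ L.erase b, η a * η b * (2 * η a * η b * ∏ l ∈ (L.erase b).erase a, η l ^ 2) =
      2 * #L * (#L - 1) * ∏ l ∈ L, η l ^ 2 := by
    have : ∀ b ∈ L, ∑ a ∈ L.erase b, η a * η b * (2 * η a * η b * ∏ l ∈ (L.erase b).erase a, η l ^ 2) =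
        (#L - 1) * (2 * ∏ l ∈ L, η l ^ 2) := fun b hb => by
      rw [← Nat.cast_pred (card_pos.2 ⟨b, hb⟩), ← card_erase_of_mem hb, ← nsmul_eq_mul, ← sum_const]
      exact sum_congr rfl fun a ha => by
        rw [← mul_prod_erase L _ hb, ← mul_prod_erase _ (fun l => η l ^ 2) ha]; ring
    rw [sum_congr rfl this, sum_const, nsmul_eq_mul]; ring
  have : ∀ b ∈ L, ∑ a ∈ L.erase b, η a * η b * ((η a + η b) ^ 2 * ∏ l ∈ (L.erase b).erase a, η l ^ 2) = _ :=
    fun b _ => (sum_congr rfl fun a _ => (by ring : _ =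
      η a * η b * (η a ^ 2 * ∏ l ∈ (L.erase b).erase a, η l ^ 2) +
      η a * η b * (η b ^ 2 * ∏ l ∈ (L.erase b).erase a, η l ^ 2) +
      η a * η b * (2 * η a * η b * ∏ l ∈ (L.erase b).erase a, η l ^ 2))).trans
      (by rw [sum_add_distrib, sum_add_distrib])
  rw [sum_congr rfl this, sum_add_distrib, sum_add_distrib, k, k2, k3]; ring

def Tv (φ : ℚ) (k : ℕ) (P : ℚ) : ℚ := if k = 1 then 1 else if k = 2 then 2 * φ * P else 0
def uu (k : ℕ) : ℚ := if k ≤ 1 then 0 else 2 ^ (k - 1) * (k - 2).factorial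

theorem Kmain [Nonempty Y] (ε : Y → ℚ) (hε : ∑ y, ε y = 0) (φ : ℚ) (m : ℕ) : ∀ (c : Y → Λ) (W : Y × Y → ℚ),
    (∀ y y', c y ≠ c y' → W (y, y') = φ * ε y * ε y') →
    (m + 1 < #(univ.image c) → Kt m c W = 0) ∧
    (m + 1 = #(univ.image c) → Kt m c W = Tv φ (m + 1) (∏ l ∈ univ.image c, eta ε c l)) ∧
    (m = #(univ.image c) → Kt m c W = -uu m * φ ^ m * ∏ l ∈ univ.image c, eta ε c l ^ 2 +
      Tv φ m (∏ l ∈ univ.image c, eta ε c l) * (∑ e, W e - (m - 1) / 2)) := by
  induction m with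
  | zero =>
    intro c W _
    refine ⟨fun h => ?_, fun h => ?_, fun h => ?_⟩
    · obtain ⟨a, ha, b, hb, e⟩ := one_lt_card.1 h
      obtain ⟨y, -, rfl⟩ := mem_image.1 ha
      obtain ⟨y', -, rfl⟩ := mem_image.1 hb
      have : ¬Conn c 0 := fun q => e ((q (fun x => c x = c y') (fun _ _ r => by rw [r]) (by simp) y y').2 rfl)
      simp [Kt, this]
    · have : Conn c 0 := fun S q _ y y' => q y y'
        (card_le_one.1 h.ge _ (mem_image_of_mem _ (mem_univ y)) _ (mem_image_of_mem _ (mem_univ y')))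
      simp [Kt, this, Tv]
    · exact absurd h (card_pos.2 (univ_nonempty.image c)).ne
  | succ m ih =>
    intro c W hW
    have hm : (m + 1 : ℚ) ≠ 0 := by positivity
    have hs : ∑ l ∈ univ.image c, eta ε c l = 0 := by simpa [hε] using (fib ε c fun _ => 1).symm
    have i1 := fun y y' (q : c y ≠ c y') => ih (ctr c (c y) (c y')) (W - Pi.single (y, y') 1) fun x x' r => by
      have r1 : c x ≠ c x' := fun s => r (by unfold ctr; rw [s])
      have r2 : (x, x') ≠ (y, y') := fun s => r (by cases s; simp [ctr])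
      simp [r2, hW x x' r1]
    have i2 := fun y y' (q : c y = c y') => ih c (W - Pi.single (y, y') 1) fun x x' r => by
      have r2 : (x, x') ≠ (y, y') := fun s => r (by cases s; exact q)
      simp [r2, hW x x' r]
    have cd : ∀ y y', c y ≠ c y' → #(univ.image (ctr c (c y) (c y'))) = #(univ.image c) - 1 := fun y y' q => by
      rw [im_ctr _ _ _ q, card_erase_of_mem (mem_image_of_mem _ (mem_univ _))]
    have sw : ∀ e : Y × Y, ∑ x, (W - Pi.single e 1 : Y × Y → ℚ) x = ∑ x, W x - 1 := fun e => by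
      simp [sum_sub_distrib]
    refine ⟨fun h => ?_, fun h => ?_, fun h => ?_⟩ <;> apply mul_left_cancel₀ hm
    · rw [Kt_dec ε φ m c W hW (fun _ _ => 0) 0 (fun y y' q => (i1 y y' q).1 (by rw [cd y y' q]; omega))
        fun y y' q => (i2 y y' q).1 (by omega)]
      simp
    · rw [Kt_dec ε φ m c W hW (fun a b => Tv φ (m + 1) ((eta ε c a + eta ε c b) *
          ∏ l ∈ ((univ.image c).erase b).erase a, eta ε c l)) 0 (fun y y' q => by
          rw [(i1 y y' q).2.1 (by rw [cd y y' q]; omega), im_ctr _ _ _ q, prod_ctr ε c y y' q fun x => x])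
        fun y y' q => (i2 y y' q).1 (by omega)]
      rcases m with _ | _ | m
      · obtain ⟨a, b, hab, e⟩ := card_eq_two.1 h.symm
        simp [Tv, e, hab, hab.symm, erase_insert_of_ne]
        ring
      · have := alg1 _ _ hs
        simp only [Tv, sub_zero]
        norm_num
        right
        rw [← mul_zero (2 * φ), ← this, mul_sum]
        exact sum_congr rfl fun b _ => by rw [mul_sum]; exact sum_congr rfl fun a _ => by ring
      · simp [Tv]
    · rw [Kt_dec ε φ m c W hW (fun a b => -uu m * φ ^ m * ((eta ε c a + eta ε c b) ^ 2 *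
          ∏ l ∈ ((univ.image c).erase b).erase a, eta ε c l ^ 2) + Tv φ m ((eta ε c a + eta ε c b) *
          ∏ l ∈ ((univ.image c).erase b).erase a, eta ε c l) * (∑ e, W e - 1 - (m - 1) / 2))
          (Tv φ (m + 1) (∏ l ∈ univ.image c, eta ε c l)) (fun y y' q => by
          rw [(i1 y y' q).2.2 (by rw [cd y y' q]; omega), im_ctr _ _ _ q, prod_ctr ε c y y' q fun x => x,
            prod_ctr ε c y y' q fun x => x ^ 2, sw])
        fun y y' q => (i2 y y' q).2.1 h]
      rcases m with _ | _ | m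
      · obtain ⟨a, e⟩ := card_eq_one.1 h.symm
        simp [Tv, e, uu]
      · obtain ⟨a, b, hab, e⟩ := card_eq_two.1 h.symm
        have : eta ε c b = -eta ε c a := by
          rw [e, sum_pair hab] at hs; linarith
        simp [Tv, uu, e, hab, hab.symm, erase_insert_of_ne, this]
        ring
      · have a1 := alg1 _ _ hs
        have a2 := alg2 _ _ hs
        have t : Tv φ (m + 1 + 1 + 1) (∏ l ∈ univ.image c, eta ε c l) = 0 := by simp [Tv]
        have u : uu (m + 1 + 1 + 1) = 2 * (m + 1) * uu (m + 1 + 1) := by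
          simp [uu, Nat.factorial_succ]; ring
        have : ∀ P, Tv φ (m + 1 + 1) P = (if m = 0 then 2 * φ else 0) * P := fun P => by
          simp [Tv]
        rw [← h] at a2
        simp only [t, this, u, sub_zero]
        have key : ∀ (A x B : ℚ) (f g : Λ → Λ → ℚ), ∑ b ∈ univ.image c, ∑ a ∈ (univ.image c).erase b,
            eta ε c a * eta ε c b * (A * f a b + x * g a b * B) =
            A * (∑ b ∈ univ.image c, ∑ a ∈ (univ.image c).erase b, eta ε c a * eta ε c b * f a b) +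
            x * B * ∑ b ∈ univ.image c, ∑ a ∈ (univ.image c).erase b, eta ε c a * eta ε c b * g a b :=
          fun A x B f g => by
            simp only [mul_sum, ← sum_add_distrib]
            exact sum_congr rfl fun _ _ => sum_congr rfl fun _ _ => by ring
        rw [key, a1, a2]
        push_cast; ring

theorem Kfin [Nonempty Y] (ε : Y → ℚ) (hε : ∑ y, ε y = 0) (φ : ℚ) (m : ℕ) (c : Y → Λ) (W : Y × Y → ℚ)
    (hW : ∀ y y', y ≠ y' → W (y, y') = φ * ε y * ε y') (h3 : 3 ≤ #(univ.image c)) (hm : m ≤ #(univ.image c)) :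
    Kt m c W = if m = #(univ.image c) then -uu m * φ ^ m * ∏ l ∈ univ.image c, eta ε c l ^ 2 else 0 := by
  obtain ⟨h0, h1, h2⟩ := Kmain ε hε φ m c W fun y y' q => hW y y' fun r => q (by rw [r])
  split_ifs with q
  · rw [h2 q, Tv, if_neg (by omega), if_neg (by omega)]; simp
  · by_cases r : m + 1 = #(univ.image c)
    · rw [h1 r, Tv, if_neg (by omega), if_neg (by omega)]
    · exact h0 (by omega)

end Pool.Agent.H.MP_c3079b_lc
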