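import Pool.Agent.H.MP_c3079b_lc.A

namespace Pool.Agent.H.MP_c3079b_lc
open Finset

variable {V I E Y Λ : Type}

theorem exlab [Fintype V] [DecidableEq V] [DecidableEq E] (a b : E → V) (D : Finset E) : ∃ c : V → V,
    (∀ S : V → Prop, (∀ y y', c y = c y' → (S y ↔ S y')) ↔ ∀ d ∈ D, (S (a d) ↔ S (b d))) ∧
      Fintype.card V ≤ #(univ.image c) + #D := by
  induction D using Finset.induction_on with
  | empty => exact ⟨id, fun S => by simp, by simp⟩
  | insert d D hd ih =>
    obtain ⟨c, h1, h2⟩ := ih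
    refine ⟨ctr c (c (a d)) (c (b d)), fun S => ?_, ?_⟩
    · rw [ctr_inv, h1, forall_mem_insert, and_comm]
    · rw [card_insert_of_notMem hd]
      by_cases q : c (a d) = c (b d)
      · have : ctr c (c (a d)) (c (b d)) = c := funext fun x => by unfold ctr; grind
        rw [this]; omega
      · rw [im_ctr _ _ _ q, card_erase_of_mem (mem_image_of_mem _ (mem_univ _))]; omega

theorem ind [Fintype V] [DecidableEq V] [Fintype I] [Nonempty I] (a : V → I → ℚ) (v : V) (F G : (V → I) → ℚ)
    (h : ∀ p, ∑ i, a v i * F (Function.update p v i) = ∑ i, a v i * G (Function.update p v i)) :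
    ∑ p : V → I, (∏ x, a x (p x)) * F p = ∑ p : V → I, (∏ x, a x (p x)) * G p := by
  classical
  have key : ∀ H : (V → I) → ℚ, ∑ p : V → I, ∑ i, H (Function.update p v i) = Fintype.card I * ∑ p, H p := fun H => by
    have inv : Function.Involutive fun z : (V → I) × I => (Function.update z.1 v z.2, z.1 v) := fun z => by simp
    rw [← Fintype.sum_prod_type', Fintype.sum_equiv inv.toPerm (fun z => H (Function.update z.1 v z.2))
      (fun z => H z.1) fun z => rfl,
      Fintype.sum_prod_type]
    simp [mul_sum]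
  have k2 : ∀ F : (V → I) → ℚ, Fintype.card I * ∑ p : V → I, (∏ x, a x (p x)) * F p =
      ∑ p : V → I, (∏ x ∈ {v}ᶜ, a x (p x)) * ∑ i, a v i * F (Function.update p v i) := fun F => by
    rw [← key]
    refine sum_congr rfl fun p _ => ?_
    rw [mul_sum]
    refine sum_congr rfl fun i _ => ?_
    rw [Fintype.prod_eq_mul_prod_compl v, prod_congr rfl fun x hx => by
      rw [Function.update_of_ne (by simpa using hx)]]
    simp; ring
  apply mul_left_cancel₀ (a := (Fintype.card I : ℚ)) (by simp)
  simp only [k2, h]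

def Phi [Fintype V] [DecidableEq Λ] (c : V → Λ) (L : Finset Λ) (x y : V → ℚ) : ℚ :=
  ∏ l ∈ L, ((∑ v with c v = l, x v) ^ 2 + ∑ v with c v = l, y v)

theorem Phi_up [Fintype V] [DecidableEq V] [DecidableEq Λ] (c : V → Λ) (L : Finset Λ) (x y : V → ℚ) (v : V)
    (h : c v ∈ L) : ∃ A B R : ℚ, ∀ p q,
      Phi c L (Function.update x v p) (Function.update y v q) = ((p + A) ^ 2 + (q + B)) * R := by
  refine ⟨∑ u ∈ (univ.filter fun u => c u = c v) \ {v}, x u, ∑ u ∈ (univ.filter fun u => c u = c v) \ {v}, y u,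
    ∏ l ∈ L.erase (c v), ((∑ v with c v = l, x v) ^ 2 + ∑ v with c v = l, y v), fun p q => ?_⟩
  rw [Phi, ← mul_prod_erase _ _ h, sum_update_of_mem (by simp), sum_update_of_mem (by simp)]
  congr 1
  refine prod_congr rfl fun l hl => ?_
  have : v ∉ univ.filter fun u => c u = l := by simpa using (mem_erase.1 hl).1.symm
  rw [sum_update_of_notMem this, sum_update_of_notMem this]

theorem avg [Fintype V] [DecidableEq V] [Fintype I] [Nonempty I] [DecidableEq Λ] (a ξ : V → I → ℚ) (m μ ν : V → ℚ)
    (h0 : ∀ v, ∑ i, a v i = m v) (h1 : ∀ v, ∑ i, a v i * ξ v i = m v * μ v)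
    (h2 : ∀ v, ∑ i, a v i * ξ v i ^ 2 = m v * (μ v ^ 2 + ν v)) (c : V → Λ) (L : Finset Λ) (hc : ∀ v, c v ∈ L) :
    ∑ p : V → I, (∏ x, a x (p x)) * Phi c L (fun v => ξ v (p v)) 0 = (∏ v, m v) * Phi c L μ ν := by
  classical
  have key : ∀ s : Finset V, ∑ p : V → I, (∏ x, a x (p x)) * Phi c L (fun v => ξ v (p v)) 0 =
      ∑ p : V → I, (∏ x, a x (p x)) *
        Phi c L (fun v => if v ∈ s then μ v else ξ v (p v)) (fun v => if v ∈ s then ν v else 0) := fun s => by
    induction s using Finset.induction_on with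
    | empty => simp [Pi.zero_def]
    | insert v s hv ih =>
      rw [ih]
      refine ind a v _ _ fun p => ?_
      obtain ⟨A, B, R, h⟩ := Phi_up c L (fun v => if v ∈ s then μ v else ξ v (p v))
        (fun v => if v ∈ s then ν v else 0) v (hc v)
      have e1 : ∀ i, Phi c L (fun u => if u ∈ s then μ u else ξ u (Function.update p v i u))
          (fun u => if u ∈ s then ν u else 0) = ((ξ v i + A) ^ 2 + (0 + B)) * R := fun i => by
        rw [← h]
        congr 1 <;> funext u <;> by_cases q : u = v <;> simp [q, hv]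
      have e2 : ∀ i, Phi c L (fun u => if u ∈ insert v s then μ u else ξ u (Function.update p v i u))
          (fun u => if u ∈ insert v s then ν u else 0) = ((μ v + A) ^ 2 + (ν v + B)) * R := fun i => by
        rw [← h]
        congr 1 <;> funext u <;> by_cases q : u = v <;> simp [q]
      simp only [e1, e2]
      rw [← sum_mul, h0, sum_congr rfl fun i _ => (by ring : a v i * (((ξ v i + A) ^ 2 + (0 + B)) * R) =
        R * (a v i * ξ v i ^ 2) + 2 * A * R * (a v i * ξ v i) + (A ^ 2 + B) * R * a v i)]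
      simp only [sum_add_distrib, ← mul_sum, h0, h1, h2]; ring
  rw [key univ]
  simp only [mem_univ, if_true, ← sum_mul]
  rw [← Fintype.piFinset_univ, ← prod_univ_sum]
  simp [h0]

theorem fibre [Fintype I] [DecidableEq I] [Fintype E] [DecidableEq E] (τ : I → E) (N : ℕ) (P : (E → ℕ) → Prop)
    [DecidablePred P] (hP : ∀ k, P k → ∀ e, k e ≤ N) :
    (#{A : Finset I | P fun e => #{i ∈ A | τ i = e}} : ℚ) =
      ∑ k ∈ Fintype.piFinset fun _ => range (N + 1), if P k then ∏ e, ch #{i | τ i = e} (k e) else 0 := by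
  rw [← sum_filter, card_eq_sum_card_fiberwise (f := fun A e => #{i ∈ A | τ i = e})
    (t := (Fintype.piFinset fun _ => range (N + 1)).filter P) fun A hA => by
      have := (mem_filter.1 hA).2
      simp only [coe_filter, Fintype.mem_piFinset, mem_range, Set.mem_ofPred_eq]
      exact ⟨fun e => Nat.lt_succ_of_le (hP _ this e), this⟩]
  push_cast
  refine sum_congr rfl fun k hk => ?_
  simp only [ch_nat, ← card_powersetCard]
  rw [← Nat.cast_prod, ← Fintype.card_piFinset]
  congr 1
  refine card_nbij' (fun A e => {i ∈ A | τ i = e}) (fun g => univ.filter fun i => i ∈ g (τ i)) (fun A hA => ?_) (fun g hg => ?_)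
    (fun A _ => by ext; simp) fun g hg => ?_
  · simp only [coe_filter, mem_filter, Set.mem_ofPred_eq] at hA
    simp only [mem_coe, Fintype.mem_piFinset, mem_powersetCard]
    exact fun e => ⟨filter_subset_filter _ (subset_univ _), congrFun hA.2 e⟩
  all_goals
    simp only [mem_coe, Fintype.mem_piFinset, mem_powersetCard] at hg
    have : ∀ e, {i ∈ ({i | i ∈ g (τ i)} : Finset I) | τ i = e} = g e := fun e => by
      ext i
      have := @(hg e).1 i
      simp only [mem_filter, mem_univ, true_and] at this ⊢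
      grind
  · have e : (fun e => #{i ∈ ({i | i ∈ g (τ i)} : Finset I) | τ i = e}) = k := funext fun e => by
      rw [this, (hg e).2]
    simp only [coe_filter, mem_filter, Set.mem_ofPred_eq, e, mem_univ, true_and, and_true]
    exact (mem_filter.1 hk).2
  · exact funext this

def ConnAll (a b : E → Y) (k : E → ℕ) : Prop :=
  ∀ S : Y → Prop, (∀ e, k e ≠ 0 → (S (a e) ↔ S (b e))) → ∀ y y', S y ↔ S y'

open Classical in
noncomputable def Zs [Fintype E] [DecidableEq E] (a b : E → Y) (N : ℕ) (w : E → ℚ) : ℚ :=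
  ∑ k ∈ Fintype.piFinset fun _ => range (N + 1), if ∑ e, k e = N ∧ ConnAll a b k then ∏ e, ch (w e) (k e) else 0

open Polynomial in
theorem Zs_poly [Fintype E] [DecidableEq E] (a b : E → Y) (N : ℕ) (α β : E → ℚ) :
    ∃ p : ℚ[X], p.natDegree ≤ N ∧ ∀ t, Zs a b N (fun e => α e + β e * t) = p.eval t := by
  classical
  refine ⟨∑ k ∈ Fintype.piFinset fun _ => range (N + 1), if ∑ e, k e = N ∧ ConnAll a b k then
    ∏ e, ((∏ i ∈ range (k e), (C (β e) * X + C (α e - i))) * C (((k e).factorial : ℚ)⁻¹)) else 0,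
    natDegree_sum_le_of_forall_le _ _ fun k _ => ?_, fun t => ?_⟩
  · split_ifs with h
    · rw [← h.1]
      refine (natDegree_prod_le _ _).trans (sum_le_sum fun e _ => (natDegree_mul_C_le _ _).trans
        ((natDegree_prod_le _ _).trans ((sum_le_sum fun i _ => natDegree_linear_le).trans (by simp))))
    · simp
  · rw [Zs, eval_finsetSum]
    refine sum_congr rfl fun k _ => ?_
    split_ifs
    · simp only [eval_prod, eval_mul, eval_add, eval_C, eval_X, ch, div_eq_mul_inv]
      exact prod_congr rfl fun e _ => congrArg (· * _) (prod_congr rfl fun i _ => by ring)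
    · simp

theorem Zs_ext [Fintype E] [DecidableEq E] (a b : E → Y) (N : ℕ) (α β : E → ℚ) :
    Zs a b N (fun e => α e - β e) =
      ∑ t ∈ range (N + 1), (-1) ^ t * ((N + 1).choose (t + 1) : ℚ) * Zs a b N fun e => α e + β e * t := by
  obtain ⟨p, h1, h2⟩ := Zs_poly a b N α β
  have h := congrFun (Polynomial.fwdDiff_iter_eq_zero_of_degree_lt (Nat.lt_succ_of_le h1)) (-1)
  rw [fwdDiff_iter_eq_sum_shift, sum_range_succ'] at h
  have e : (fun e => α e - β e) = fun e => α e + β e * (-1) := funext fun _ => by ring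
  simp only [e, h2]
  apply mul_left_cancel₀ (a := (-1 : ℚ) ^ (N + 1)) (by simp)
  simp only [Pi.zero_apply, Nat.sub_zero, Nat.choose_zero_right, zsmul_eq_mul, nsmul_eq_mul] at h
  push_cast at h
  rw [zero_mul, add_zero, mul_one] at h
  rw [eq_neg_of_add_eq_zero_right h, mul_sum, ← sum_neg_distrib]
  refine sum_congr rfl fun t ht => ?_
  obtain ⟨s, rfl⟩ := Nat.exists_eq_add_of_le (Nat.lt_succ_iff.1 (mem_range.1 ht))
  rw [Nat.add_sub_cancel_left, Nat.succ_eq_add_one, show (-1 : ℚ) + (t + 1) * 1 = t by ring]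
  have : ((-1 : ℚ) ^ t) * (-1) ^ t = 1 := by rw [← mul_pow]; simp
  linear_combination ((-1) ^ s * ((t + s + 1).choose (t + 1) : ℚ) * p.eval (t : ℚ)) * this

theorem fd_top (D d : ℕ) (h : d ≤ D) : ∑ i ∈ range (D + 1), (-1) ^ (D - i) * (D.choose i : ℚ) * (i + 1 : ℚ) ^ d =
    if d = D then (D.factorial : ℚ) else 0 := by
  have := fwdDiff_iter_eq_sum_shift (h := (1 : ℚ)) (fun x : ℚ => x ^ d) D 1
  simp only [zsmul_eq_mul, nsmul_eq_mul, mul_one] at this
  push_cast at this
  simp only [add_comm (1 : ℚ)] at this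
  rw [← this]
  split_ifs with q
  · subst q
    exact congrFun fwdDiff_iter_eq_factorial 1
  · exact congrFun (fwdDiff_iter_pow_eq_zero_of_lt (by omega)) 1

end Pool.Agent.H.MP_c3079b_lc
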