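import Pool.Agent.H.MP_c3079b_lc.B

namespace Pool.Agent.H.MP_c3079b_lc
open Finset

variable {V : Type}

def ty (k : Fin 3 → ℕ) : Fin 5 :=
  if k 0 ≠ 0 then (if k 1 ≠ 0 ∨ k 2 ≠ 0 then 4 else 1) else if k 1 ≠ 0 then (if k 2 ≠ 0 then 4 else 2) else
    if k 2 ≠ 0 then 3 else 0
def rk : Fin 5 → ℕ := ![0, 1, 1, 1, 2]
def mn (p : Fin 5) (j : Fin 3) : Prop := j = 0 ∨ p = 4 ∨ (j = 1 ∧ p = 1) ∨ (j = 2 ∧ p = 2)
instance (p j) : Decidable (mn p j) := by unfold mn; infer_instance
def ga : Fin 3 → Fin 3 := ![0, 0, 1]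
def gb : Fin 3 → Fin 3 := ![1, 2, 2]
def rp (p : Fin 5) (j : Fin 3) : Fin 3 := if mn p j then 0 else if p = 3 then 1 else j

def lab (c : V → V) (π : V → Fin 5) : Option V × Fin 3 → Option V × Fin 3
  | (none, j) => (none, j)
  | (some v, j) => (some (if rp (π v) j = 0 then c v else v), rp (π v) j)

theorem rk_le (k : Fin 3 → ℕ) : rk (ty k) ≤ ∑ i, k i := by
  rw [Fin.sum_univ_three]; unfold ty
  split_ifs <;> simp [rk] <;> omega

theorem rp_edge (k : Fin 3 → ℕ) (i : Fin 3) (h : k i ≠ 0) : rp (ty k) (ga i) = rp (ty k) (gb i) := by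
  unfold ty
  fin_cases i <;> split_ifs <;> first | decide | simp_all

theorem rp_inv (k : Fin 3 → ℕ) (T : Fin 3 → Prop) (h : ∀ i, k i ≠ 0 → (T (ga i) ↔ T (gb i))) (j : Fin 3) :
    T j ↔ T (rp (ty k) j) := by
  have h0 : k 0 ≠ 0 → (T 0 ↔ T 1) := h 0
  have h1 : k 1 ≠ 0 → (T 0 ↔ T 2) := h 1
  have h2 : k 2 ≠ 0 → (T 1 ↔ T 2) := h 2
  have r : ∀ j, rp 4 j = 0 := by decide
  have r1 : ∀ j, rp 1 j = ![0, 0, 2] j := by decide
  have r2 : ∀ j, rp 2 j = ![0, 1, 0] j := by decide
  have r3 : ∀ j, rp 3 j = ![0, 1, 1] j := by decide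
  have r0 : ∀ j, rp 0 j = j := by decide
  unfold ty
  fin_cases j <;> split_ifs <;> simp only [r, r0, r1, r2, r3] <;> simp <;> tauto

theorem lab_inv {Δ : Type} (a b : Δ → V) (kd : Δ → ℕ) (c : V → V)
    (hc : ∀ S : V → Prop, (∀ y y', c y = c y' → (S y ↔ S y')) ↔ ∀ d, kd d ≠ 0 → (S (a d) ↔ S (b d)))
    (kg : V → Fin 3 → ℕ) (S : Option V × Fin 3 → Prop) :
    (∀ y y', lab c (fun v => ty (kg v)) y = lab c (fun v => ty (kg v)) y' → (S y ↔ S y')) ↔
      (∀ d, kd d ≠ 0 → (S (some (a d), 0) ↔ S (some (b d), 0))) ∧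
        ∀ v i, kg v i ≠ 0 → (S (some v, ga i) ↔ S (some v, gb i)) := by
  have r0 : ∀ p, rp p 0 = 0 := by decide
  constructor
  · intro h
    refine ⟨fun d hd => h _ _ ?_, fun v i hi => h _ _ ?_⟩
    · have := ((hc fun x => c x = c (b d)).1 (fun _ _ e => by rw [e]) d hd).2 rfl
      simp [lab, r0, this]
    · simp [lab, rp_edge _ _ hi]
  · rintro ⟨h1, h2⟩ ⟨_ | v, j⟩ ⟨_ | v', j'⟩ e
    · simp only [lab, Prod.mk.injEq, true_and] at e; rw [e]
    · simp [lab] at e
    · simp [lab] at e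
    · simp only [lab, Prod.mk.injEq, Option.some.injEq] at e
      rw [rp_inv (kg v) (fun j => S (some v, j)) (h2 v) j, rp_inv (kg v') (fun j => S (some v', j)) (h2 v') j', ← e.2]
      rw [← e.2] at e
      by_cases q : rp (ty (kg v)) j = 0
      · rw [q]
        exact (hc fun x => S (some x, 0)).2 h1 v v' (by simpa [q] using e)
      · rw [show v = v' by simpa [q] using e]

variable [Fintype V] [DecidableEq V]

theorem lab_prod {M : Type} [CommMonoid M] (c : V → V) (π : V → Fin 5) (g : Option V × Fin 3 → M) :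
    ∏ l ∈ univ.image (lab c π), g l = (∏ j, g (none, j)) * (∏ v ∈ univ.image c, g (some v, 0)) *
      ∏ v, ((if π v ≠ 1 ∧ π v ≠ 4 then g (some v, 1) else 1) * if π v = 0 ∨ π v = 1 then g (some v, 2) else 1) := by
  have r0 : ∀ p, rp p 0 = 0 := by decide
  have r1 : ∀ p, (∃ j, rp p j = 1) ↔ p ≠ 1 ∧ p ≠ 4 := by decide
  have r2 : ∀ p, (∃ j, rp p j = 2) ↔ p = 0 ∨ p = 1 := by decide
  have h0 : ∀ j, (none, j) ∈ univ.image (lab c π) := fun j => mem_image.2 ⟨(none, j), mem_univ _, rfl⟩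
  have h1 : ∀ v, (some v, 0) ∈ univ.image (lab c π) ↔ v ∈ univ.image c := fun v => by
    simp only [mem_image, mem_univ, true_and]
    constructor
    · rintro ⟨⟨_ | u, j⟩, e⟩
      · simp [lab] at e
      · simp only [lab, Prod.mk.injEq, Option.some.injEq] at e
        exact ⟨u, by simpa [e.2] using e.1⟩
    · rintro ⟨u, rfl⟩
      exact ⟨(some u, 0), by simp [lab, r0]⟩
  have h2 : ∀ v i, i ≠ 0 → ((some v, i) ∈ univ.image (lab c π) ↔ ∃ j, rp (π v) j = i) := fun v i hi => by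
    simp only [mem_image, mem_univ, true_and]
    constructor
    · rintro ⟨⟨_ | u, j⟩, e⟩
      · simp [lab] at e
      · simp only [lab, Prod.mk.injEq, Option.some.injEq] at e
        obtain rfl : u = v := by simpa [e.2, hi] using e.1
        exact ⟨j, e.2⟩
    · rintro ⟨j, e⟩
      exact ⟨(some v, j), by simp [lab, e, hi]⟩
  rw [← prod_ite_mem_eq, Fintype.prod_prod_type, Fintype.prod_option, mul_assoc, ← prod_ite_mem_eq (univ.image c),
    ← prod_mul_distrib]
  simp only [h0, if_true]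
  congr 1
  refine prod_congr rfl fun v _ => ?_
  simp only [Fin.prod_univ_three, h1, h2 v 1 (by decide), h2 v 2 (by decide), r1, r2, mul_assoc]

theorem lab_card (c : V → V) (π : V → Fin 5) :
    #(univ.image (lab c π)) = 3 + #(univ.image c) + ∑ v, (2 - rk (π v)) := by
  have := congrArg Multiplicative.toAdd (lab_prod c π fun _ => Multiplicative.ofAdd 1)
  simp only [toAdd_prod, toAdd_mul, toAdd_ofAdd, sum_const, smul_eq_mul, mul_one, card_univ, Fintype.card_fin] at this
  rw [this]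
  congr 1
  refine sum_congr rfl fun v _ => ?_
  generalize π v = p
  revert p; decide

def xi (ε : Option V × Fin 3 → ℚ) (v : V) (p : Fin 5) : ℚ := ∑ j, if rp p j = 0 then ε (some v, j) else 0
def rho (ε : Option V × Fin 3 → ℚ) (v : V) (p : Fin 5) : ℚ :=
  (if p ≠ 1 ∧ p ≠ 4 then (∑ j, if rp p j = 1 then ε (some v, j) else 0) ^ 2 else 1) *
    if p = 0 ∨ p = 1 then (∑ j, if rp p j = 2 then ε (some v, j) else 0) ^ 2 else 1

theorem lab_eta (ε : Option V × Fin 3 → ℚ) (c : V → V) (π : V → Fin 5) :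
    ∏ l ∈ univ.image (lab c π), eta ε (lab c π) l ^ 2 = (∏ j, ε (none, j) ^ 2) * (∏ v, rho ε v (π v)) *
      Phi c (univ.image c) (fun v => xi ε v (π v)) 0 := by
  have e0 : ∀ j, eta ε (lab c π) (none, j) = ε (none, j) := fun j => by
    simp [eta, sum_filter, Fintype.sum_prod_type, lab]
  have e1 : ∀ l, eta ε (lab c π) (some l, 0) = ∑ v with c v = l, xi ε v (π v) := fun l => by
    simp only [eta, sum_filter, Fintype.sum_prod_type, lab, Fintype.sum_option, xi]
    simp only [Prod.mk.injEq, reduceCtorEq, false_and, if_false, sum_const_zero, zero_add, Option.some.injEq]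
    refine sum_congr rfl fun v _ => ?_
    split_ifs with q
    · exact sum_congr rfl fun j _ => by grind
    · exact sum_eq_zero fun j _ => by grind
  have e2 : ∀ l i, i ≠ 0 → eta ε (lab c π) (some l, i) = ∑ j, if rp (π l) j = i then ε (some l, j) else 0 :=
    fun l i hi => by
      simp only [eta, sum_filter, Fintype.sum_prod_type, lab, Fintype.sum_option]
      simp only [Prod.mk.injEq, reduceCtorEq, false_and, if_false, sum_const_zero, zero_add, Option.some.injEq]
      rw [sum_eq_single l (fun v _ hv => sum_eq_zero fun j _ => by grind) (by simp)]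
      exact sum_congr rfl fun j _ => by grind
  rw [lab_prod]
  simp only [e0, e1, e2 _ 1 (by decide), e2 _ 2 (by decide), rho, Phi, Pi.zero_apply, sum_const_zero, add_zero]
  ring

theorem push {X P : Type} [Fintype P] [DecidableEq P] (t : Finset X) (f : X → P) (a : V → X → ℚ) (G : (V → P) → ℚ) :
    ∑ x ∈ Fintype.piFinset fun _ : V => t, (∏ v, a v (x v)) * G (fun v => f (x v)) =
      ∑ p : V → P, (∏ v, ∑ y ∈ t with f y = p v, a v y) * G p := by
  classical
  rw [← sum_fiberwise (g := fun (x : V → X) v => f (x v))]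
  refine sum_congr rfl fun p _ => ?_
  rw [prod_univ_sum, sum_mul]
  refine sum_congr (by ext; simp [funext_iff, forall_and]) fun x hx => ?_
  rw [show (fun v => f (x v)) = p from funext fun v => (mem_filter.1 (Fintype.mem_piFinset.1 hx v)).2]

theorem loc (N : ℕ) (g : Fin 3 → ℚ) (hg : g 0 * g 1 + g 0 * g 2 + g 1 * g 2 = 0) (p : Fin 5) :
    ∑ y ∈ (Fintype.piFinset fun _ => range (N + 2)) with ty y = p,
      (if ∑ i, y i = rk (ty y) then ∏ i, ch (g i) (y i) else 0) = ![1, g 0, g 1, g 2, 0] p := by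
  rw [← sum_filter, filter_filter]
  have key : ∀ s : Finset (Fin 3 → ℕ), (∀ y ∈ s, (∀ i, y i < 2) ∧ ty y = p ∧ ∑ i, y i = rk (ty y)) →
      (∀ a b c : ℕ, ty ![a, b, c] = p → a + b + c = rk p → ![a, b, c] ∈ s) →
      {y ∈ Fintype.piFinset fun _ : Fin 3 => range (N + 2) | ty y = p ∧ ∑ i, y i = rk (ty y)} = s := fun s h1 h2 => by
    ext y
    simp only [mem_filter, Fintype.mem_piFinset, mem_range]
    refine ⟨fun ⟨_, a, b⟩ => ?_, fun h => ⟨fun i => ((h1 y h).1 i).trans_le (by omega), (h1 y h).2⟩⟩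
    have e : y = ![y 0, y 1, y 2] := by ext i; fin_cases i <;> rfl
    rw [e]
    exact h2 _ _ _ (e ▸ a) (by rw [← a, ← b, Fin.sum_univ_three])
  fin_cases p
  · rw [key {![0, 0, 0]} (by decide) fun a b c h1 h2 => by simp [rk] at h2; simp [h2]]
    simp [Fin.prod_univ_three]
  · rw [key {![1, 0, 0]} (by decide) fun a b c h1 h2 => by
      simp [rk, ty] at h1 h2; simp; split_ifs at h1 <;> first | omega | simp_all]
    simp [Fin.prod_univ_three]
  · rw [key {![0, 1, 0]} (by decide) fun a b c h1 h2 => by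
      simp [rk, ty] at h1 h2; simp; split_ifs at h1 <;> first | omega | simp_all]
    simp [Fin.prod_univ_three]
  · rw [key {![0, 0, 1]} (by decide) fun a b c h1 h2 => by
      simp [rk, ty] at h1 h2; simp; split_ifs at h1 <;> first | omega | simp_all]
    simp [Fin.prod_univ_three]
  · rw [key {![1, 1, 0], ![1, 0, 1], ![0, 1, 1]} (by decide) fun a b c h1 h2 => by
      simp [rk, ty] at h1 h2; simp; split_ifs at h1 <;> first | omega | simp_all]
    rw [sum_insert (by decide), sum_pair (by decide)]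
    simp [Fin.prod_univ_three]
    linarith

theorem split {A B : Type} [Fintype A] [DecidableEq A] [Fintype B] [DecidableEq B] (t : Finset ℕ)
    (f : (A ⊕ B → ℕ) → ℚ) : ∑ k ∈ Fintype.piFinset fun _ => t, f k =
      ∑ a ∈ Fintype.piFinset fun _ => t, ∑ b ∈ Fintype.piFinset fun _ => t, f (Sum.elim a b) := by
  rw [← sum_product']
  refine sum_equiv (Equiv.sumArrowEquivProdArrow A B ℕ) (fun k => ?_) fun k _ => ?_
  · simp [Equiv.sumArrowEquivProdArrow]
  · congr 1; ext (x | x) <;> rfl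

theorem split2 {A B : Type} [Fintype A] [DecidableEq A] [Fintype B] [DecidableEq B] (t : Finset ℕ)
    (f : (A × B → ℕ) → ℚ) : ∑ k ∈ Fintype.piFinset fun _ => t, f k =
      ∑ a ∈ Fintype.piFinset fun _ : A => Fintype.piFinset fun _ : B => t, f fun x => a x.1 x.2 := by
  refine sum_equiv (Equiv.curry A B ℕ) (fun k => ?_) fun k _ => rfl
  simp

end Pool.Agent.H.MP_c3079b_lc
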