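import Pool.Agent.H.MP_c3079b_lc.C

namespace Pool.Agent.H.MP_c3079b_lc
open Finset

variable {V Δ : Type}

open Classical in
theorem inner {Y Λ : Type} [Fintype Y] [DecidableEq Y] [DecidableEq Λ] (c : Y → Λ) (W : Y × Y → ℚ) (s N : ℕ) (A : ℚ) :
    (∑ k ∈ Fintype.piFinset fun _ => range (N + 1),
      if s + ∑ e, k e = N ∧ Conn c k then A * ∏ e, ch (W e) (k e) else 0) =
      A * if s ≤ N then Kt (N - s) c W else 0 := by
  split_ifs with h
  · rw [Kt, mul_sum]
    simp only [ite_and, mul_ite, mul_zero]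
    rw [← sum_filter]
    refine sum_congr ?_ fun _ _ => rfl
    ext k
    simp only [mem_filter, Fintype.mem_piFinset, mem_range, mem_piAntidiag, mem_univ, implies_true, and_true]
    change _ ↔ ∑ e, k e = N - s
    refine ⟨fun h => by omega, fun q => ⟨fun e => ?_, by omega⟩⟩
    have := single_le_sum (f := k) (fun _ _ => Nat.zero_le _) (mem_univ e)
    omega
  · rw [mul_zero]
    exact sum_eq_zero fun k _ => if_neg fun q => h (by omega)

abbrev YY (V : Type) := Option V × Fin 3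
abbrev EE (V Δ : Type) := Δ ⊕ (V × Fin 3 ⊕ YY V × YY V)
def ea (a : Δ → V) : EE V Δ → YY V :=
  Sum.elim (fun d => (some (a d), 0)) (Sum.elim (fun x => (some x.1, ga x.2)) Prod.fst)
def eb (b : Δ → V) : EE V Δ → YY V :=
  Sum.elim (fun d => (some (b d), 0)) (Sum.elim (fun x => (some x.1, gb x.2)) Prod.snd)

variable [Fintype V] [DecidableEq V] [Fintype Δ] [DecidableEq Δ]

def kk (c : V → V) (π : V → Fin 5) : ℕ := 3 + #(univ.image c) + ∑ v, (2 - rk (π v))

theorem Zform (a b : Δ → V) (wd : Δ → ℚ) (g : V → Fin 3 → ℚ)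
    (hg : ∀ v, g v 0 * g v 1 + g v 0 * g v 2 + g v 1 * g v 2 = 0) (ε : YY V → ℚ) (hε : ∑ y, ε y = 0) (φ : ℚ)
    (W : YY V × YY V → ℚ) (hW : ∀ y y', y ≠ y' → W (y, y') = φ * ε y * ε y') (cc : (Δ → ℕ) → V → V)
    (hc : ∀ kd, ∀ S : V → Prop, (∀ y y', cc kd y = cc kd y' → (S y ↔ S y')) ↔ ∀ d, kd d ≠ 0 → (S (a d) ↔ S (b d)))
    (hn : ∀ kd, Fintype.card V ≤ #(univ.image (cc kd)) + ∑ d, kd d) :
    Zs (ea a) (eb b) (3 * Fintype.card V + 3) (Sum.elim wd (Sum.elim (fun x => g x.1 x.2) W)) =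
      ∑ kd ∈ Fintype.piFinset fun _ => range (3 * Fintype.card V + 3 + 1), (∏ d, ch (wd d) (kd d)) *
        if #(univ.image (cc kd)) + ∑ d, kd d = Fintype.card V then
          ∑ π : V → Fin 5, (∏ v, ![1, g v 0, g v 1, g v 2, 0] (π v)) * (-uu (kk (cc kd) π) * φ ^ kk (cc kd) π *
            ((∏ j, ε (none, j) ^ 2) * (∏ v, rho ε v (π v)) *
              Phi (cc kd) (univ.image (cc kd)) (fun v => xi ε v (π v)) 0)) else 0 := by
  classical
  rw [Zs, split]
  refine sum_congr rfl fun kd _ => ?_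
  rw [split, split2]
  have key : ∀ kg : V → Fin 3 → ℕ, (∑ k ∈ Fintype.piFinset fun _ => range (3 * Fintype.card V + 3 + 1),
      if ∑ e : EE V Δ, Sum.elim kd (Sum.elim (fun x => kg x.1 x.2) k) e = 3 * Fintype.card V + 3 ∧
        ConnAll (ea a) (eb b) (Sum.elim kd (Sum.elim (fun x => kg x.1 x.2) k)) then
        ∏ e : EE V Δ, ch (Sum.elim wd (Sum.elim (fun x => g x.1 x.2) W) e)
          (Sum.elim kd (Sum.elim (fun x => kg x.1 x.2) k) e) else 0) =
      (∏ d, ch (wd d) (kd d)) * if #(univ.image (cc kd)) + ∑ d, kd d = Fintype.card V then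
        (∏ v, if ∑ i, kg v i = rk (ty (kg v)) then ∏ i, ch (g v i) (kg v i) else 0) *
        (-uu (kk (cc kd) fun v => ty (kg v)) * φ ^ (kk (cc kd) fun v => ty (kg v)) *
            ((∏ j, ε (none, j) ^ 2) * (∏ v, rho ε v (ty (kg v))) *
              Phi (cc kd) (univ.image (cc kd)) (fun v => xi ε v (ty (kg v))) 0)) else 0 := fun kg => by
    have cn : ∀ k, ConnAll (ea a) (eb b) (Sum.elim kd (Sum.elim (fun x => kg x.1 x.2) k)) ↔
        Conn (lab (cc kd) fun v => ty (kg v)) k := fun k => by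
      refine forall_congr' fun S => ?_
      rw [lab_inv a b kd _ (hc kd)]
      simp only [Sum.forall, ea, eb, Sum.elim_inl, Sum.elim_inr, and_imp, Prod.forall (α := V)]
    simp only [cn, Fintype.sum_sum_type, Fintype.prod_sum_type, Sum.elim_inl, Sum.elim_inr, ← add_assoc, ← mul_assoc,
      Fintype.sum_prod_type (α₁ := V), Fintype.prod_prod_type (α₁ := V)]
    rw [inner]
    have h1 := lab_card (cc kd) fun v => ty (kg v)
    beta_reduce at h1
    have h2 := hn kd
    have h3 : ∑ v, (2 - rk (ty (kg v))) + ∑ v, rk (ty (kg v)) = 2 * Fintype.card V := by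
      have : ∀ p, 2 - rk p + rk p = 2 := by decide
      simp [← sum_add_distrib, this, mul_comm]
    have h4 : ∑ v, rk (ty (kg v)) ≤ ∑ v, ∑ i, kg v i := sum_le_sum fun v _ => rk_le _
    have h5 : (∀ v, ∑ i, kg v i = rk (ty (kg v))) ↔ ∑ v, rk (ty (kg v)) = ∑ v, ∑ i, kg v i := by
      rw [sum_eq_sum_iff_of_le fun v _ => rk_le _]; simp [eq_comm]
    rw [Fintype.prod_ite_zero]
    by_cases q : #(univ.image (cc kd)) + ∑ d, kd d = Fintype.card V ∧ ∀ v, ∑ i, kg v i = rk (ty (kg v))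
    · have := h5.1 q.2
      have e : 3 * Fintype.card V + 3 - (∑ d, kd d + ∑ v, ∑ i, kg v i) = kk (cc kd) fun v => ty (kg v) := by
        unfold kk; beta_reduce; omega
      rw [if_pos (by omega), if_pos q.1, if_pos q.2, Kfin ε hε φ _ _ W hW (by omega) (by omega), if_pos (by omega),
        lab_eta, e]
      ring
    · have : (if ∑ d, kd d + ∑ v, ∑ i, kg v i ≤ 3 * Fintype.card V + 3 then
          Kt (3 * Fintype.card V + 3 - (∑ d, kd d + ∑ v, ∑ i, kg v i)) (lab (cc kd) fun v => ty (kg v)) W else 0) = 0 := by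
        split_ifs with r
        · rw [Kfin ε hε φ _ _ W hW (by omega) (by omega), if_neg fun s => q ⟨by omega, h5.2 (by omega)⟩]
        · rfl
      rw [this]
      split_ifs with r s
      · exact absurd ⟨r, s⟩ q
      all_goals simp
  rw [sum_congr rfl fun kg _ => key kg, ← mul_sum]
  congr 1
  split_ifs
  · rw [push _ ty (fun v y => if ∑ i, y i = rk (ty y) then ∏ i, ch (g v i) (y i) else 0) fun π =>
      -uu (kk (cc kd) π) * φ ^ kk (cc kd) π * ((∏ j, ε (none, j) ^ 2) * (∏ v, rho ε v (π v)) *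
        Phi (cc kd) (univ.image (cc kd)) (fun v => xi ε v (π v)) 0)]
    simp only [loc (3 * Fintype.card V + 2) _ (hg _)]
  · simp

theorem group (c : V → V) (L : Finset V) (hc : ∀ v, c v ∈ L) (A ξ : V → Fin 5 → ℚ) (h4 : ∀ v, A v 4 = 0) (R : ℕ → ℚ)
    (m μ ν : V → ℚ) (h0 : ∀ v, A v 1 + A v 2 + A v 3 = m v)
    (h1 : ∀ v, A v 1 * ξ v 1 + A v 2 * ξ v 2 + A v 3 * ξ v 3 = m v * μ v)
    (h2 : ∀ v, A v 1 * ξ v 1 ^ 2 + A v 2 * ξ v 2 ^ 2 + A v 3 * ξ v 3 ^ 2 = m v * (μ v ^ 2 + ν v)) :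
    ∑ π : V → Fin 5, (∏ v, A v (π v)) * (R (∑ v, (2 - rk (π v))) * Phi c L (fun v => ξ v (π v)) 0) =
      ∑ β : V → Bool, R (∑ v, if β v then 2 else 1) * ((∏ v, if β v then A v 0 else m v) *
        Phi c L (fun v => if β v then ξ v 0 else μ v) fun v => if β v then 0 else ν v) := by
  have key : ∀ β : V → Bool, (∏ v, if β v then A v 0 else m v) *
      Phi c L (fun v => if β v then ξ v 0 else μ v) (fun v => if β v then 0 else ν v) = _ := fun β =>
    (avg (fun v p => if decide (p = 0) = β v then A v p else 0) ξ _ _ _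
      (fun v => by cases β v <;> simp [Fin.sum_univ_five, h4, h0])
      (fun v => by cases β v <;> simp [Fin.sum_univ_five, h4, h1])
      (fun v => by cases β v <;> simp [Fin.sum_univ_five, h4, h2]) c L hc).symm
  simp only [key, mul_sum]
  rw [sum_comm]
  refine sum_congr rfl fun π _ => ?_
  rw [sum_eq_single (fun v => decide (π v = 0)) (fun β _ hβ => ?_) (by simp)]
  · by_cases q : ∃ v, π v = 4
    · obtain ⟨v, q⟩ := q
      have : ∏ v, A v (π v) = 0 := prod_eq_zero (mem_univ v) (by rw [q, h4])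
      simp [this]
    · have : ∀ p : Fin 5, p ≠ 4 → 2 - rk p = if decide (p = 0) then 2 else 1 := by decide
      rw [sum_congr rfl fun v _ => this _ fun e => q ⟨v, e⟩]
      simp only [if_true]; ring
  · obtain ⟨v, hv⟩ := Function.ne_iff.1 hβ
    rw [prod_eq_zero (mem_univ v) (if_neg hv.symm)]; simp

end Pool.Agent.H.MP_c3079b_lc
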