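import Pool.Agent.H.MP_c3079b_lc.D

namespace Pool.Agent.H.MP_c3079b_lc
open Finset

set_option synthInstance.maxSize 4000

variable {U S : Type} [Fintype U] [DecidableEq U] [Fintype S] [DecidableEq S]

def eps (z : ℚ) : YY (U ⊕ S) → ℚ
  | (none, j) => ![1, 1, -z] j
  | (some (.inl _), j) => ![1, -3, 3] j
  | (some (.inr _), j) => ![4, -4, 4] j
def gw : U ⊕ S → Fin 3 → ℚ
  | .inl _ => ![12, -3, 4]
  | .inr _ => ![2, 2, -1]
def wt (z φ : ℚ) : EE (U ⊕ S) (S × Fin 3) → ℚ := Sum.elim (fun _ => 1)
  (Sum.elim (fun x => φ ^ 3 * gw x.1 x.2) fun e => if e.1 = e.2 then 0 else φ * eps z e.1 * eps z e.2)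

open Classical in
noncomputable def XC (el : S × Fin 3 → U) : ℕ := #{A : Finset S | ∀ u, ∃! d : S × Fin 3, d.1 ∈ A ∧ el d = u}

def good (el : S × Fin 3 → U) (kd : S × Fin 3 → ℕ) : Prop :=
  ∑ d, kd d = Fintype.card U ∧ ∀ u, ∃ d, kd d ≠ 0 ∧ el d = u
def unif (kd : S × Fin 3 → ℕ) : Prop := ∀ s, kd (s, 0) = kd (s, 1) ∧ kd (s, 1) = kd (s, 2)

theorem good_f {el : S × Fin 3 → U} {kd} (h : good el kd) :
    ∃ f : U → S × Fin 3, (∀ u, el (f u) = u) ∧ ∀ d, kd d = if d ∈ univ.image f then 1 else 0 := by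
  choose f h1 h2 using h.2
  refine ⟨f, h2, fun d => ((sum_eq_sum_iff_of_le (s := univ) (f := fun d => if d ∈ univ.image f then 1 else 0)
    (g := kd) fun d _ => ?_).1 ?_ d (mem_univ _)).symm⟩
  · split_ifs with q
    · obtain ⟨u, -, rfl⟩ := mem_image.1 q
      exact Nat.pos_of_ne_zero (h1 u)
    · simp
  · rw [sum_ite_mem_eq, h.1, ← card_eq_sum_ones, card_image_of_injective _ (Function.LeftInverse.injective h2),
      card_univ]

open Classical in
theorem cnt_good (el : S × Fin 3 → U) (N : ℕ) :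
    ∑ kd ∈ Fintype.piFinset fun _ => range (N + 2), (if good el kd ∧ unif kd then (1 : ℚ) else 0) = XC el := by
  rw [sum_boole, XC]
  congr 1
  have key : ∀ kd, good el kd → unif kd → ∀ d, kd d = if kd (d.1, 0) ≠ 0 then 1 else 0 := fun kd h1 h2 (s, j) => by
    obtain ⟨f, -, h⟩ := good_f h1
    have e : kd (s, j) = kd (s, 0) := by
      have := h2 s
      fin_cases j <;> simp <;> omega
    have := h (s, 0)
    rw [e]
    split_ifs at this ⊢ <;> simp_all
  refine card_nbij' (fun kd => univ.filter fun s => kd (s, 0) ≠ 0) (fun A d => if d.1 ∈ A then 1 else 0)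
    (fun kd h => ?_) (fun A h => ?_) (fun kd h => ?_) fun A _ => by ext; simp
  · obtain ⟨-, h1, h2⟩ := mem_filter.1 h
    obtain ⟨f, h3, h4⟩ := good_f h1
    have : ∀ d, kd (d.1, 0) ≠ 0 ↔ ∃ u, f u = d := fun d => by
      have a := key kd h1 h2 d
      have b := h4 d
      simp only [mem_image, mem_univ, true_and] at b
      grind
    simp only [coe_filter, mem_filter, mem_univ, true_and, Set.mem_ofPred_eq, this]
    refine fun u => ⟨f u, ⟨⟨u, rfl⟩, h3 u⟩, ?_⟩
    rintro _ ⟨⟨u', rfl⟩, e⟩
    rw [← e, h3]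
  · have h := (mem_filter.1 h).2
    simp only [coe_filter, Fintype.mem_piFinset, mem_range, Set.mem_ofPred_eq]
    refine ⟨fun d => by split_ifs <;> omega, ⟨?_, fun u => ?_⟩, fun s => ⟨rfl, rfl⟩⟩
    · rw [← sum_fiberwise (g := el), ← card_univ, card_eq_sum_ones]
      refine sum_congr rfl fun u _ => ?_
      obtain ⟨d, a, b⟩ := h u
      rw [sum_eq_single d (fun x hx q => if_neg fun r => q (b x ⟨r, (mem_filter.1 hx).2⟩)) (by simp [a.2]), if_pos a.1]
    · obtain ⟨d, a, -⟩ := h u
      exact ⟨d, by simp [a.1], a.2⟩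
  · obtain ⟨-, h1, h2⟩ := mem_filter.1 h
    ext d
    rw [key kd h1 h2 d]; simp

def mu : U ⊕ S → ℚ := Sum.elim (fun _ => -4) fun _ => 4
def nu : U ⊕ S → ℚ := Sum.elim (fun _ => -16) fun _ => 16

open Classical in
theorem exlab2 (el : S × Fin 3 → U) (kd : S × Fin 3 → ℕ) : ∃ c : U ⊕ S → U ⊕ S,
    (∀ T : U ⊕ S → Prop, (∀ y y', c y = c y' → (T y ↔ T y')) ↔
      ∀ d, kd d ≠ 0 → (T (.inr d.1) ↔ T (.inl (el d)))) ∧
    Fintype.card (U ⊕ S) ≤ #(univ.image c) + ∑ d, kd d ∧ (good el kd → #(univ.image c) = Fintype.card S ∧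
      (∏ d, ch 1 (kd d)) * Phi c (univ.image c) mu nu = if unif kd then 32 ^ Fintype.card S else 0) := by
  by_cases h : good el kd
  swap
  · obtain ⟨c, h1, h2⟩ := exlab (V := U ⊕ S) (fun d => .inr d.1) (fun d => .inl (el d)) (univ.filter fun d => kd d ≠ 0)
    refine ⟨c, by simpa using h1, h2.trans (Nat.add_le_add_left ?_ _), fun q => absurd q h⟩
    rw [card_filter]
    exact sum_le_sum fun d _ => by split_ifs <;> omega
  obtain ⟨f, h3, h4⟩ := good_f h
  have im : univ.image (Sum.elim (fun u => .inr (f u).1) .inr : U ⊕ S → U ⊕ S) = univ.image .inr := by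
    ext (x | x) <;> simp
  have cd : #(univ.image (Sum.elim (fun u => .inr (f u).1) .inr : U ⊕ S → U ⊕ S)) = Fintype.card S := by
    rw [im, card_image_of_injective _ Sum.inr_injective, card_univ]
  refine ⟨Sum.elim (fun u => .inr (f u).1) .inr, fun T => ⟨fun q d hd => q _ _ ?_, fun q => ?_⟩, ?_, fun _ => ⟨cd, ?_⟩⟩
  · obtain ⟨u, -, rfl⟩ := mem_image.1 (by_contra fun r => hd ((h4 d).trans (if_neg r)) : d ∈ univ.image f)
    simp [h3]
  · have : ∀ y, T y ↔ T (Sum.elim (fun u => .inr (f u).1) .inr y) := by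
      rintro (u | s)
      · simpa [h3] using (q (f u) (by simp [h4])).symm
      · rfl
    intro y y' e
    rw [this y, this y', e]
  · rw [cd, h.1]; simp [add_comm]
  have e1 : ∏ d, ch 1 (kd d) = 1 := prod_eq_one fun d _ => by rw [h4]; split_ifs <;> simp
  have e2 : ∀ s (x y : ℚ), ∑ v : U ⊕ S with Sum.elim (fun u => .inr (f u).1) .inr v = (.inr s : U ⊕ S),
      Sum.elim (fun _ => x) (fun _ => y) v = x * ((kd (s, 0) : ℚ) + kd (s, 1) + kd (s, 2)) + y := fun s x y => by
    have : ∑ u, (if (f u).1 = s then x else 0) = ∑ d : S × Fin 3, kd d * if d.1 = s then x else 0 := by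
      simp only [h4, Nat.cast_ite, ite_mul, Nat.cast_one, Nat.cast_zero, one_mul, zero_mul]
      rw [sum_ite_mem_eq, sum_image (Function.LeftInverse.injective h3).injOn]
    simp [sum_filter, this, Fintype.sum_prod_type, Fin.sum_univ_three, sum_add_distrib]
    ring
  rw [e1, one_mul, Phi, im, prod_image Sum.inr_injective.injOn]
  simp only [mu, nu, e2]
  have e3 : (if unif kd then (32 : ℚ) ^ Fintype.card S else 0) =
      ∏ s, if kd (s, 0) = kd (s, 1) ∧ kd (s, 1) = kd (s, 2) then 32 else 0 := by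
    rw [Fintype.prod_ite_zero]; simp [unif]
  rw [e3]
  refine prod_congr rfl fun s _ => ?_
  have : ∀ d, kd d = 0 ∨ kd d = 1 := fun d => by rw [h4]; split_ifs <;> simp
  rcases this (s, 0) with a | a <;> rcases this (s, 1) with b | b <;> rcases this (s, 2) with c | c <;>
    simp only [a, b, c] <;> norm_num

theorem level1 (el : S × Fin 3 → U) (z : ℚ) (hz : z = 2 + Fintype.card U + 4 * Fintype.card S) (D : ℕ)
    (hD : D = 3 + 4 * Fintype.card U + 5 * Fintype.card S) :
    ∑ i ∈ range (D + 1), (-1) ^ (D - i) * (D.choose i : ℚ) *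
      Zs (ea fun d => .inr d.1) (eb fun d => .inl (el d)) (3 * Fintype.card (U ⊕ S) + 3) (wt z (i + 1)) =
    -(D.factorial * uu (3 + Fintype.card U + 2 * Fintype.card S) * z ^ 2 * 81 ^ Fintype.card U *
      2048 ^ Fintype.card S * XC el) := by
  classical
  choose cc h1 h2 h3 using exlab2 el
  have r : ∀ p j, rp p j = ![![0, 1, 2], ![0, 0, 2], ![0, 1, 0], ![0, 1, 1], ![0, 0, 0]] p j := by decide
  let co : (S × Fin 3 → ℕ) → (U ⊕ S → Bool) → ℚ := fun kd β => (∏ d, ch 1 (kd d)) *
    if #(univ.image (cc kd)) + ∑ d, kd d = Fintype.card (U ⊕ S) then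
      -uu (3 + #(univ.image (cc kd)) + ∑ v, if β v then 2 else 1) * z ^ 2 *
      (∏ v, if β v then Sum.elim (fun _ => 81) (fun _ => 256) v else Sum.elim (fun _ => 81) (fun _ => 64) v) *
      Phi (cc kd) (univ.image (cc kd)) (fun v => if β v then Sum.elim (fun _ => 1) (fun _ => 4) v else mu v)
        fun v => if β v then 0 else nu v else 0
  let dg : (S × Fin 3 → ℕ) → (U ⊕ S → Bool) → ℕ := fun kd β =>
    3 + #(univ.image (cc kd)) + (∑ v, if β v then 2 else 1) + ∑ v, if β v then 0 else 3
  have hZ : ∀ φ : ℚ, Zs (ea fun d => .inr d.1) (eb fun d => .inl (el d)) (3 * Fintype.card (U ⊕ S) + 3) (wt z φ) =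
      ∑ kd ∈ Fintype.piFinset fun _ => range (3 * Fintype.card (U ⊕ S) + 3 + 1), ∑ β, co kd β * φ ^ dg kd β := fun φ => by
    rw [wt, Zform (fun d => .inr d.1) (fun d => .inl (el d)) _ (fun v j => φ ^ 3 * gw v j)
      (by rintro (u | s) <;> simp [gw] <;> ring) (eps z)
      (by simp [Fintype.sum_prod_type, eps, Fin.sum_univ_three, hz]; ring) φ _ (fun y y' h => if_neg h) cc h1 h2]
    refine sum_congr rfl fun kd _ => ?_
    simp only [co, mul_assoc, ← mul_sum]
    congr 1
    split_ifs
    swap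
    · simp
    have := group (cc kd) (univ.image (cc kd)) (fun v => mem_image_of_mem _ (mem_univ v))
      (fun v p => ![1, φ ^ 3 * gw v 0, φ ^ 3 * gw v 1, φ ^ 3 * gw v 2, 0] p * rho (eps z) v p) (xi (eps z))
      (fun v => by simp) (fun n => -uu (3 + #(univ.image (cc kd)) + n) * φ ^ (3 + #(univ.image (cc kd)) + n) * z ^ 2)
      (fun v => φ ^ 3 * Sum.elim (fun _ => 81) (fun _ => 64) v) mu nu
      (by rintro (u | s) <;> simp [gw, rho, r, eps, Fin.sum_univ_three] <;> ring)
      (by rintro (u | s) <;> simp [gw, rho, r, eps, Fin.sum_univ_three, xi, mu] <;> ring)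
      (by rintro (u | s) <;> simp [gw, rho, r, eps, Fin.sum_univ_three, xi, mu, nu] <;> ring)
    refine Eq.trans (sum_congr rfl fun π _ => ?_) (this.trans (sum_congr rfl fun β _ => ?_))
    · simp only [prod_mul_distrib, kk, Fin.prod_univ_three, eps]
      simp; ring
    · have e1 : (fun v => if β v then xi (eps z) v 0 else mu v) =
          fun v => if β v then Sum.elim (fun _ => 1) (fun _ => 4) v else mu v := by
        funext v; rcases v with u | s <;> simp [xi, r, eps, Fin.sum_univ_three]
      have e2 : ∀ v, (if β v then ![1, φ ^ 3 * gw v 0, φ ^ 3 * gw v 1, φ ^ 3 * gw v 2, 0] 0 * rho (eps z) v 0 else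
          φ ^ 3 * Sum.elim (fun _ => 81) (fun _ => 64) v) = φ ^ (if β v then 0 else 3) *
          if β v then Sum.elim (fun _ => 81) (fun _ => 256) v else Sum.elim (fun _ => 81) (fun _ => 64) v := by
        rintro (u | s) <;> split_ifs <;> simp [rho, r, eps, Fin.sum_univ_three] <;> norm_num
      simp only [e1, e2, prod_mul_distrib, prod_pow_eq_pow_sum, dg]
      ring
  have hT : ∀ kd β, ∑ i ∈ range (D + 1), (-1) ^ (D - i) * (D.choose i : ℚ) * (co kd β * (i + 1 : ℚ) ^ dg kd β) =
      if β = fun _ => false then (if good el kd ∧ unif kd then (1 : ℚ) else 0) *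
        -(D.factorial * uu (3 + Fintype.card U + 2 * Fintype.card S) * z ^ 2 * 81 ^ Fintype.card U *
          2048 ^ Fintype.card S) else 0 := fun kd β => by
    have top : good el kd → dg kd (fun _ => false) = D ∧ co kd (fun _ => false) * D.factorial =
        (if unif kd then (1 : ℚ) else 0) *
        -(D.factorial * uu (3 + Fintype.card U + 2 * Fintype.card S) * z ^ 2 * 81 ^ Fintype.card U *
          2048 ^ Fintype.card S) := fun g => by
      obtain ⟨a, b⟩ := h3 kd g
      refine ⟨by simp [dg, a, hD]; ring, ?_⟩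
      simp only [co, a, g.1, Fintype.card_sum, add_comm (Fintype.card S), if_true, Bool.false_eq_true, if_false]
      have e : (3 + Fintype.card S + ∑ v : U ⊕ S, 1) = 3 + Fintype.card U + 2 * Fintype.card S := by simp; ring
      have e2 : (2048 : ℚ) ^ Fintype.card S = 64 ^ Fintype.card S * 32 ^ Fintype.card S := by
        rw [← mul_pow]; norm_num
      rw [e, e2, mul_left_comm, b]
      split_ifs <;> simp <;> ring
    simp only [mul_left_comm _ (co kd β), ← mul_sum]
    by_cases q : co kd β = 0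
    · rw [q, zero_mul]
      split_ifs with a b
      · subst a
        have := (top b.1).2
        rw [q, if_pos b.2] at this
        rw [← this, zero_mul]
      all_goals simp
    have q1 : #(univ.image (cc kd)) + ∑ d, kd d = Fintype.card (U ⊕ S) := by_contra fun a => q (by simp only [co, if_neg a, mul_zero])
    have q2 : ∀ u, β (.inl u) = false → ∃ d, kd d ≠ 0 ∧ el d = u := fun u hu => by_contra fun a => q (by
      have : univ.filter (fun v => cc kd v = cc kd (.inl u)) = {.inl u} := by
        ext v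
        simp only [mem_filter, mem_univ, true_and, mem_singleton]
        refine ⟨fun e => ((h1 kd fun x => x = .inl u).2 (fun d hd => ?_) _ _ e).2 rfl, fun e => by rw [e]⟩
        simpa using fun e => a ⟨d, hd, e⟩
      have : Phi (cc kd) (univ.image (cc kd)) (fun v => if β v then Sum.elim (fun _ => 1) (fun _ => 4) v else mu v)
          (fun v => if β v then 0 else nu v) = 0 :=
        prod_eq_zero (mem_image_of_mem _ (mem_univ (.inl u))) (by simp [this, hu, mu, nu]; norm_num)
      simp only [co, this]; simp)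
    have q3 : Fintype.card U ≤ ∑ d, kd d + ∑ v, if β v then 1 else 0 := by
      have : (univ : Finset U) ⊆ (univ.filter fun d => kd d ≠ 0).image el ∪ univ.filter fun u => β (.inl u) := fun u _ => by
        cases e : β (.inl u)
        · obtain ⟨d, a, b⟩ := q2 u e
          exact mem_union_left _ (mem_image.2 ⟨d, by simpa using a, b⟩)
        · simp [e]
      refine (card_le_card this).trans ((card_union_le _ _).trans (Nat.add_le_add (card_image_le.trans ?_) ?_))
      · rw [card_filter]
        exact sum_le_sum fun d _ => by split_ifs <;> omega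
      · rw [card_filter, Fintype.sum_sum_type]; omega
    have q4 : (∑ v, if β v then 2 else 1) + (∑ v, if β v then 0 else 3) + 2 * ∑ v, (if β v then 1 else 0) =
        4 * Fintype.card (U ⊕ S) := by
      rw [mul_sum, ← sum_add_distrib, ← sum_add_distrib, sum_congr rfl (g := fun _ => 4) fun v _ => by
        split_ifs <;> rfl]
      simp [mul_comm]
    rw [Fintype.card_sum] at q1 q4
    rw [fd_top _ _ (by simp only [dg]; omega)]
    by_cases e : dg kd β = D
    · have e0 : ∑ v, (if β v then 1 else 0) = 0 := by simp only [dg] at e; omega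
      have e1 : ∑ d, kd d = Fintype.card U := by simp only [dg] at e; omega
      obtain rfl : β = fun _ => false := funext fun v => by simpa using sum_eq_zero_iff.1 e0 v (mem_univ v)
      have g : good el kd := ⟨e1, fun u => q2 u rfl⟩
      rw [if_pos e, if_pos rfl, (top g).2]; simp [g]
    · rw [if_neg e, mul_zero]
      split_ifs with a b
      · subst a
        exact absurd (top b.1).1 e
      all_goals simp
  simp only [hZ, mul_sum]
  rw [sum_comm, sum_congr rfl fun kd _ => sum_comm]
  simp only [hT, sum_ite_eq', mem_univ, if_true, ← sum_mul]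
  rw [cnt_good el (3 * Fintype.card (U ⊕ S) + 2)]; ring

end Pool.Agent.H.MP_c3079b_lc
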