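import Pool.Agent.H.MP_c3079b_lc.E
import Pool.Agent.Lib.helper7.CXSharp
import Pool.Agent.Lib.lead.CXGraphRed

namespace Pool.Agent.H.MP_c3079b_lc
open Finset Pool.Agent.Lib.CX

set_option synthInstance.maxSize 4000

noncomputable def Uni (a : Gr) : ℕ := Nat.card {A : Finset (Fin a.2.length) // A.card = a.n ∧
  (SimpleGraph.fromRel fun u v : Fin a.n => ∃ i ∈ A, a.2[i] = (u.1, v.1)).Connected}

theorem conn_iff {V : Type} [Nonempty V] (r : V → V → Prop) : (SimpleGraph.fromRel r).Connected ↔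
    ∀ S : V → Prop, (∀ u v, r u v → (S u ↔ S v)) → ∀ u v, S u ↔ S v := by
  constructor
  · intro h S q u v
    obtain ⟨w⟩ := h u v
    induction w with
    | nil => rfl
    | cons a _ ih =>
      rw [← ih]
      exact ((SimpleGraph.fromRel_adj _ _ _).1 a).2.elim (q _ _) fun b => (q _ _ b).symm
  · refine fun h => ⟨fun u v => (h (fun x => (SimpleGraph.fromRel r).Reachable u x) (fun x y q => ?_) u v).1 .rfl⟩
    by_cases e : x = y
    · rw [e]
    · have : (SimpleGraph.fromRel r).Adj x y := (SimpleGraph.fromRel_adj _ _ _).2 ⟨e, .inl q⟩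
      exact ⟨fun a => a.trans this.reachable, fun a => a.trans this.symm.reachable⟩

theorem card_get {C : Type} [DecidableEq C] (l : List C) (x : C) : #{i : Fin l.length | l[i.1] = x} = l.count x := by
  rw [card_filter, Fin.sum_univ_fun_getElem l fun y => if y = x then 1 else 0]
  induction l with
  | nil => simp
  | cons y l ih => simp [List.count_cons, ih, add_comm]

theorem uni_eq {Y E C : Type} [Nonempty Y] [Fintype E] [DecidableEq E] [DecidableEq C] (n : List Unit)
    (ν : Y ≃ Fin n.length) (a b : E → Y) (el : List C) (hel : el.Nodup) (m : C → ℕ) (f : C → ℕ × ℕ)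
    (code : E → C) (inj : Function.Injective code) (hc : ∀ e, code e ∈ el)
    (hs : ∀ x ∈ el, m x ≠ 0 → ∃ e, code e = x) (hf : ∀ e, f (code e) = ((ν (a e)).1, (ν (b e)).1)) :
    (Uni (n, (el.flatMap fun x => List.replicate (m x) x).map f) : ℚ) = Zs a b n.length fun e => m (code e) := by
  classical
  have cnt : ∀ e, (el.flatMap fun x => List.replicate (m x) x).count (code e) = m (code e) := fun e => by
    rw [List.count_flatMap, ← List.sum_toFinset _ hel]
    simp [List.count_replicate, hc]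
  have : ∀ x ∈ el.flatMap fun x => List.replicate (m x) x, ∃ e, code e = x := fun x hx => by
    obtain ⟨y, h1, h2⟩ := List.mem_flatMap.1 hx
    obtain ⟨h3, rfl⟩ := List.mem_replicate.1 h2
    exact hs x h1 h3
  generalize (el.flatMap fun x => List.replicate (m x) x) = tl at cnt this
  have hl : (tl.map f).length = tl.length := List.length_map _
  choose τ hτ using fun i : Fin (tl.map f).length => this (tl[i.1]'(hl ▸ i.2)) (List.getElem_mem _)
  have e1 : ∀ e, #{i | τ i = e} = m (code e) := fun e => by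
    rw [← cnt, ← card_get]
    refine card_equiv (finCongr hl) fun i => ?_
    simp [← inj.eq_iff, hτ]
  have := fibre τ n.length (fun k => ∑ e, k e = n.length ∧ ConnAll a b k) fun k hk e =>
    hk.1 ▸ single_le_sum (f := k) (fun _ _ => Nat.zero_le _) (mem_univ e)
  simp only [e1] at this
  rw [Zs, ← this, Uni, Nat.card_eq_fintype_card, Fintype.card_subtype]
  congr 2
  ext A
  have : Nonempty (Fin n.length) := ν.nonempty_congr.1 inferInstance
  simp only [mem_filter, mem_univ, true_and]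
  rw [← card_eq_sum_card_fiberwise fun i _ => mem_coe.2 (mem_univ (τ i))]
  refine and_congr Iff.rfl ((conn_iff _).trans ?_)
  have e2 : ∀ i : Fin (tl.map f).length, (tl.map f)[i] = ((ν (a (τ i))).1, (ν (b (τ i))).1) := fun i => by
    rw [← hf, hτ]; simp
  constructor
  · intro h S q y y'
    have := h (fun x => S (ν.symm x)) (fun u v ⟨i, hi, e⟩ => ?_) (ν y) (ν y')
    · simpa using this
    have e3 := (e2 i).symm.trans e
    rw [Prod.mk.injEq, Fin.val_inj, Fin.val_inj] at e3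
    rw [← e3.1, ← e3.2]
    simpa using q (τ i) (card_ne_zero.2 ⟨i, by simpa using hi⟩)
  · intro h S q u v
    have := h (fun x => S (ν x)) (fun e he => ?_) (ν.symm u) (ν.symm v)
    · simpa using this
    obtain ⟨i, hi⟩ := card_ne_zero.1 he
    obtain ⟨h1, rfl⟩ := mem_filter.1 hi
    exact q _ _ ⟨i, h1, e2 i⟩

variable {α : Type} [DecidableEq α]

def ix (l : List α) (x : α) : ℕ := l.dedup.idxOf x
theorem ix_lt {l : List α} {x : α} (h : x ∈ l) : ix l x < l.dedup.length :=
  List.idxOf_lt_length_of_mem (List.mem_dedup.2 h)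
theorem ix_inj {l : List α} {x y : α} (h : x ∈ l) (e : ix l x = ix l y) : x = y :=
  (List.idxOf_inj (List.mem_dedup.2 h)).1 e

def vs (ul sl : List α) (z : α) : List (α × ℕ) := ((z :: (ul ++ sl)) ×ˢ List.range 3).dedup
def zz (ul sl : List α) : ℕ := 2 + ul.dedup.length + 4 * sl.dedup.length
def DD (ul sl : List α) : ℕ := 3 + 4 * ul.dedup.length + 5 * sl.dedup.length
def NN (ul sl : List α) : ℕ := 3 * (ul.dedup.length + sl.dedup.length) + 3
def absE (ul sl : List α) (y : α × ℕ) : ℕ :=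
  if y.1 ∈ sl then 4 else if y.1 ∈ ul then (if y.2 = 0 then 1 else 3) else if y.2 = 2 then zz ul sl else 1
def sgE (ul sl : List α) (y : α × ℕ) : ℕ :=
  if y.1 ∈ sl ∨ y.1 ∈ ul then (if y.2 = 1 then 1 else 0) else if y.2 = 2 then 1 else 0
def absG (sl : List α) (y : α × ℕ) : ℕ :=
  if y.1 ∈ sl then (if y.2 = 2 then 1 else 2) else if y.2 = 0 then 12 else if y.2 = 1 then 3 else 4
def sgG (sl : List α) (y : α × ℕ) : ℕ := if y.1 ∈ sl then (if y.2 = 2 then 1 else 0) else if y.2 = 1 then 1 else 0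
def mA (ul sl : List α) (z : α) (i : ℕ) (x : ℕ × (α × ℕ) × (α × ℕ)) : ℕ :=
  if x.1 = 0 then (if x.2.1 = x.2.2 ∧ x.2.1.1 ∈ sl then 1 else 0)
  else if x.1 = 1 then (if x.2.1 = x.2.2 ∧ x.2.1.1 ≠ z then (min i (DD ul sl) + 1) ^ 3 * absG sl x.2.1 else 0)
  else if x.2.1 = x.2.2 then 0 else (min i (DD ul sl) + 1) * absE ul sl x.2.1 * absE ul sl x.2.2
def mS (ul sl : List α) (x : ℕ × (α × ℕ) × (α × ℕ)) : ℕ :=
  if x.1 = 0 then 0 else if x.1 = 1 then sgG sl x.2.1 else if sgE ul sl x.2.1 = sgE ul sl x.2.2 then 0 else 1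
def mult (ul sl : List α) (z : α) (i t : ℕ) (x : ℕ × (α × ℕ) × (α × ℕ)) : ℕ :=
  mA ul sl z i x * (1 + 2 * mS ul sl x * min t (DD ul sl))
def ends (eN : α × ℕ → α) (x : ℕ × (α × ℕ) × (α × ℕ)) : (α × ℕ) × (α × ℕ) :=
  if x.1 = 0 then ((x.2.1.1, 0), (eN x.2.1, 0))
  else if x.1 = 1 then ((x.2.1.1, if x.2.1.2 = 2 then 1 else 0), (x.2.1.1, if x.2.1.2 = 0 then 1 else 2)) else x.2
def gr (ul sl : List α) (z : α) (eN : α × ℕ → α) (i t : ℕ) : Gr := mkGr (vs ul sl z)
  (((List.range 3 ×ˢ vs ul sl z ×ˢ vs ul sl z).flatMap fun x => List.replicate (mult ul sl z i t x) x).map (ends eN))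

structure Ok (ul sl : List α) (z : α) (eN : α × ℕ → α) : Prop where
  d : ∀ x ∈ ul, x ∉ sl
  u : z ∉ ul
  s : z ∉ sl
  e : ∀ x ∈ sl, ∀ j < 3, eN (x, j) ∈ ul

theorem mem_vs {ul sl : List α} {z : α} {y} : y ∈ vs ul sl z ↔ (y.1 = z ∨ y.1 ∈ ul ∨ y.1 ∈ sl) ∧ y.2 < 3 := by
  obtain ⟨a, b⟩ := y; simp [vs]; grind

def Valid (a : Gr) : Prop := (∀ e ∈ a.2, e.1 < a.n ∧ e.2 < a.n ∧ e.1 ≠ e.2) ∧ a.G.Connected

theorem gr_valid {ul sl : List α} {z : α} {eN} (h : Ok ul sl z eN) (i t : ℕ) : Valid (gr ul sl z eN i t) := by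
  constructor
  · intro e he
    simp only [gr, mkGr, List.mem_map, List.mem_flatMap, List.mem_replicate] at he
    obtain ⟨_, ⟨_, ⟨⟨k, x, y⟩, h1, h2, rfl⟩, rfl⟩, rfl⟩ := he
    simp only [List.mem_product, List.mem_range] at h1
    have : (ends eN (k, x, y)).1 ∈ vs ul sl z ∧ (ends eN (k, x, y)).2 ∈ vs ul sl z ∧
        (ends eN (k, x, y)).1 ≠ (ends eN (k, x, y)).2 := by
      have h3 : mA ul sl z i (k, x, y) ≠ 0 := left_ne_zero_of_mul h2
      have := h.e x.1
      have := h.d (eN x)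
      simp only [mem_vs, mA, ends] at *
      grind
    rw [gr, mkGr_n]
    exact ⟨ix_lt this.1, ix_lt this.2.1, fun e => this.2.2 (ix_inj this.1 e)⟩
  · rw [gr, (mkGrIso _ _).connected_iff]
    have : Nonempty {x | x ∈ vs ul sl z} := ⟨⟨(z, 0), mem_vs.2 (by simp)⟩⟩
    refine ⟨fun x y => ?_⟩
    by_cases e : x = y
    · rw [e]
    have e' : x.1 ≠ y.1 := fun r => e (Subtype.ext r)
    refine SimpleGraph.Adj.reachable ?_
    rw [SimpleGraph.comap_adj, SimpleGraph.fromRel_adj]
    refine ⟨e', .inl (List.mem_map.2 ⟨(2, x, y),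
      List.mem_flatMap.2 ⟨(2, x, y), by simpa using ⟨x.2, y.2⟩, List.mem_replicate.2 ⟨?_, rfl⟩⟩, by simp [ends]⟩)⟩
    have : ∀ y, absE ul sl y ≠ 0 := fun y => by unfold absE zz; split_ifs <;> omega
    simp [mult, mA, e', this]

def nm {ul sl : List α} (z : α) : YY ({x // x ∈ ul} ⊕ {x // x ∈ sl}) → α × ℕ
  | (none, j) => (z, j)
  | (some (.inl u), j) => (u, j)
  | (some (.inr s), j) => (s, j)

def elS {ul sl : List α} {z : α} {eN} (h : Ok ul sl z eN) (d : {x // x ∈ sl} × Fin 3) : {x // x ∈ ul} :=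
  ⟨eN (d.1, d.2), h.e _ d.1.2 _ d.2.2⟩

theorem card_l (l : List α) : Fintype.card {x // x ∈ l} = l.dedup.length := by
  rw [← List.card_toFinset]; exact Fintype.card_of_subtype _ (by simp)

theorem gr_uni {ul sl : List α} {z : α} {eN} (h : Ok ul sl z eN) (i : ℕ) (hi : i ≤ DD ul sl) :
    ∑ t ∈ range (NN ul sl + 1), (-1) ^ t * ((NN ul sl + 1).choose (t + 1) : ℚ) * Uni (gr ul sl z eN i t) =
      Zs (ea fun d => .inr d.1) (eb fun d => .inl (elS h d)) (NN ul sl) (wt (zz ul sl) (i + 1)) := by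
  have hd := h.d
  have hu := h.u
  have hs := h.s
  have inj : Function.Injective (nm (ul := ul) (sl := sl) z) := by
    rintro ⟨_ | u | u, j⟩ ⟨_ | v | v, k⟩ e <;> simp only [nm, Prod.mk.injEq, Fin.val_inj] at e <;>
      obtain ⟨e, rfl⟩ := e <;> grind
  have mem : ∀ y, nm (ul := ul) (sl := sl) z y ∈ vs ul sl z := by
    rintro ⟨_ | ⟨u, a⟩ | ⟨u, a⟩, j⟩ <;> simp [nm, mem_vs, *]
  have sur : ∀ x ∈ vs ul sl z, ∃ y, nm (ul := ul) (sl := sl) z y = x := fun (x, j) hx => by
    obtain ⟨rfl | a | a, b⟩ := mem_vs.1 hx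
    exacts [⟨(none, ⟨j, b⟩), rfl⟩, ⟨(some (.inl ⟨x, a⟩), ⟨j, b⟩), rfl⟩, ⟨(some (.inr ⟨x, a⟩), ⟨j, b⟩), rfl⟩]
  let ν : YY ({x // x ∈ ul} ⊕ {x // x ∈ sl}) ≃ Fin (mkGr (vs ul sl z) []).n :=
    (Equiv.ofBijective (fun y => (⟨nm z y, mem y⟩ : {x | x ∈ vs ul sl z}))
      ⟨fun a b e => inj (congrArg Subtype.val e), fun x => let ⟨y, e⟩ := sur x.1 x.2; ⟨y, Subtype.ext e⟩⟩).trans
      (mkGrEquiv _ _).symm
  have hν : ∀ y, (ν y).1 = ix (vs ul sl z) (nm z y) := fun _ => rfl
  have hn : (mkGr (vs ul sl z) []).1.length = NN ul sl := by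
    have := Fintype.card_congr ν
    simp only [Fintype.card_fin, Fintype.card_prod, Fintype.card_option, Fintype.card_sum, card_l, Gr.n] at this
    unfold NN; omega
  let code : EE ({x // x ∈ ul} ⊕ {x // x ∈ sl}) ({x // x ∈ sl} × Fin 3) → ℕ × (α × ℕ) × (α × ℕ) :=
    Sum.elim (fun d => (0, nm (ul := ul) z (some (.inr d.1), d.2), nm (ul := ul) z (some (.inr d.1), d.2)))
      (Sum.elim (fun d => (1, nm z (some d.1, d.2), nm z (some d.1, d.2))) fun d => (2, nm z d.1, nm z d.2))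
  have key : ∀ t ∈ range (NN ul sl + 1), (Uni (gr ul sl z eN i t) : ℚ) =
      Zs (ea fun d => .inr d.1) (eb fun d => .inl (elS h d)) (NN ul sl)
        fun e => mA ul sl z i (code e) + 2 * mS ul sl (code e) * mA ul sl z i (code e) * t := fun t ht => by
    have := uni_eq _ ν (ea fun d => .inr d.1) (eb fun d => .inl (elS h d)) (List.range 3 ×ˢ vs ul sl z ×ˢ vs ul sl z)
      (List.nodup_range.product ((List.nodup_dedup _).product (List.nodup_dedup _))) (mult ul sl z i t)
      ((fun e => (ix (vs ul sl z) e.1, ix (vs ul sl z) e.2)) ∘ ends eN) code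
      (by rintro (a | a | a) (b | b | b) <;> simp [code, inj.eq_iff, Prod.ext_iff])
      (by rintro (a | a | a) <;> simp [code, mem]) (fun (k, x, y) hx q => by
        simp only [List.mem_product, List.mem_range] at hx
        obtain ⟨x, rfl⟩ := sur x hx.2.1
        obtain ⟨y, rfl⟩ := sur y hx.2.2
        have h3 := left_ne_zero_of_mul q
        obtain rfl | rfl | rfl : k = 0 ∨ k = 1 ∨ k = 2 := by omega
        · simp only [mA, if_true, ne_eq, ite_eq_right_iff, one_ne_zero, imp_false, not_not, inj.eq_iff] at h3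
          obtain ⟨rfl, h3⟩ := h3
          rcases x with ⟨_ | u | u, j⟩
          exacts [absurd h3 hs, absurd h3 (hd _ u.2), ⟨.inl (u, j), rfl⟩]
        · simp only [mA, one_ne_zero, if_false, if_true, ne_eq, ite_eq_right_iff, inj.eq_iff, not_forall] at h3
          obtain ⟨⟨rfl, h3⟩, -⟩ := h3
          rcases x with ⟨_ | u, j⟩
          exacts [absurd rfl h3, ⟨.inr (.inl (u, j)), rfl⟩]
        · exact ⟨.inr (.inr (x, y)), rfl⟩)
      (by
        rintro (a | ⟨u | u, j⟩ | a)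
        · rfl
        · fin_cases j <;> rfl
        · fin_cases j <;> rfl
        · rfl)
    rw [hn, ← List.map_map] at this
    have e : min t (DD ul sl) = t := min_eq_left (by have := mem_range.1 ht; unfold NN DD at *; omega)
    refine this.trans ?_
    congr 1
    ext e
    simp only [mult, *]; push_cast; ring
  rw [sum_congr rfl fun t ht => by rw [key t ht], ← Zs_ext]
  congr 1
  have sg : ∀ y, eps (zz ul sl) y = (1 - 2 * sgE ul sl (nm z y) : ℚ) * absE ul sl (nm (ul := ul) (sl := sl) z y) := by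
    rintro ⟨_ | ⟨u, a⟩ | ⟨u, a⟩, j⟩ <;> fin_cases j <;> simp [eps, sgE, absE, nm, *] <;> norm_num
  ext e
  rcases e with a | ⟨u | u, j⟩ | ⟨x, y⟩
  · simp [code, mA, mS, wt, nm, a.1.2]
  · have : u.1 ≠ z := fun e => hu (e ▸ u.2)
    fin_cases j <;> simp [code, mA, mS, wt, nm, min_eq_left hi, this, gw, absG, sgG, hd _ u.2] <;> ring
  · have : u.1 ≠ z := fun e => hs (e ▸ u.2)
    fin_cases j <;> simp [code, mA, mS, wt, nm, min_eq_left hi, this, gw, absG, sgG, u.2] <;> ring
  · have : ∀ y, sgE ul sl y = 0 ∨ sgE ul sl y = 1 := fun y => by unfold sgE; split_ifs <;> simp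
    simp only [code, mA, mS, wt, Sum.elim_inr, inj.eq_iff, sg, min_eq_left hi]
    rcases this (nm z x) with a | a <;> rcases this (nm z y) with b | b <;> simp [a, b] <;> split_ifs <;> push_cast <;> ring

def KK (ul sl : List α) : ℕ := (DD ul sl).factorial * (2 ^ (2 + ul.dedup.length + 2 * sl.dedup.length) *
  (1 + ul.dedup.length + 2 * sl.dedup.length).factorial) * zz ul sl ^ 2 * 81 ^ ul.dedup.length * 2048 ^ sl.dedup.length
def qs (ul sl : List α) : List (ℕ × ℕ) := List.range (DD ul sl + 1) ×ˢ List.range (NN ul sl + 1)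
def cf (ul sl : List α) (p : ℕ × ℕ) : ℤ := (if (DD ul sl - p.1 + p.2) % 2 = 0 then 1 else -1) *
  (((DD ul sl).choose p.1 * (NN ul sl + 1).choose (p.2 + 1) : ℕ) : ℤ)
def post (ul sl : List α) (v : List ℕ) : ℕ :=
  (List.zipWith (fun p (x : ℕ) => cf ul sl p * (x : ℤ)) (qs ul sl) v).sum.natAbs / KK ul sl

theorem post_eq {ul sl : List α} {z : α} {eN} (h : Ok ul sl z eN) :
    post ul sl ((qs ul sl).map fun p => Uni (gr ul sl z eN p.1 p.2)) = XC (elS h) := by
  have l1 := level1 (elS h) (zz ul sl) (by simp [zz, card_l]) (DD ul sl) (by simp [DD, card_l])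
  have e : 3 * Fintype.card ({x // x ∈ ul} ⊕ {x // x ∈ sl}) + 3 = NN ul sl := by simp [NN, card_l]
  rw [e, sum_congr rfl fun i hi => by rw [← gr_uni h i (Nat.lt_succ_iff.1 (mem_range.1 hi))]] at l1
  have : (List.zipWith (fun p (x : ℕ) => cf ul sl p * (x : ℤ)) (qs ul sl)
      ((qs ul sl).map fun p => Uni (gr ul sl z eN p.1 p.2))).sum = -(KK ul sl * XC (elS h) : ℕ) := by
    rw [List.zipWith_map_right, List.zipWith_self,
      ← List.sum_toFinset _ (show (qs ul sl).Nodup from List.nodup_range.product List.nodup_range)]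
    have : (qs ul sl).toFinset = range (DD ul sl + 1) ×ˢ range (NN ul sl + 1) := by ext ⟨a, b⟩; simp [qs]
    rw [this, sum_product]
    apply Int.cast_injective (α := ℚ)
    push_cast
    refine Eq.trans (sum_congr rfl fun i _ => ?_) (l1.trans ?_)
    · rw [mul_sum]
      refine sum_congr rfl fun t _ => ?_
      have : ∀ n : ℕ, (((if n % 2 = 0 then 1 else -1 : ℤ)) : ℚ) = (-1) ^ n := fun n => by
        rcases Nat.even_or_odd n with q | q
        · simp [Nat.even_iff.1 q, q.neg_one_pow]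
        · simp [Nat.odd_iff.1 q, q.neg_one_pow]
      rw [cf, Int.cast_mul, this, pow_add]; push_cast; ring
    · have : ¬(3 + ul.dedup.length + 2 * sl.dedup.length ≤ 1) := by omega
      simp only [KK, uu, card_l, if_neg this,
        show 3 + ul.dedup.length + 2 * sl.dedup.length - 1 = 2 + ul.dedup.length + 2 * sl.dedup.length by omega,
        show 3 + ul.dedup.length + 2 * sl.dedup.length - 2 = 1 + ul.dedup.length + 2 * sl.dedup.length by omega]
      push_cast; ring
  rw [post, this, Int.natAbs_neg, Int.natAbs_natCast, Nat.mul_div_cancel_left]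
  unfold KK zz; positivity

end Pool.Agent.H.MP_c3079b_lc
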