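import Pool.Agent.H.MP_c3079b_lc.F

namespace Pool.Agent.H.MP_c3079b_lc
open Finset Pool.Agent.Lib.CX

set_option synthInstance.maxSize 4000

def Cov {α : Type} (ul sl : List α) (eN : α × ℕ → α) (P : α → Prop) : Prop :=
  ∀ u ∈ ul, ∃! d : α × ℕ, (d.1 ∈ sl ∧ P d.1 ∧ d.2 < 3) ∧ eN d = u

theorem xc_eq {α β : Type} [DecidableEq α] {ul sl : List α} {z : α} {eN} (h : Ok ul sl z eN) (T : Set β)
    (Φ : β → α → Prop) (h1 : ∀ s ∈ T, Cov ul sl eN (Φ s))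
    (h2 : ∀ s ∈ T, ∀ s' ∈ T, (∀ x ∈ sl, Φ s x ↔ Φ s' x) → s = s')
    (h3 : ∀ P, Cov ul sl eN P → ∃ s ∈ T, ∀ x ∈ sl, P x ↔ Φ s x) : XC (elS h) = T.ncard := by
  classical
  have key : ∀ (A : Finset {x // x ∈ sl}) (P : α → Prop), (∀ x, x ∈ A ↔ P x.1) →
      ((∀ u, ∃! d : {x // x ∈ sl} × Fin 3, d.1 ∈ A ∧ elS h d = u) ↔ Cov ul sl eN P) := fun A P hA => by
    constructor
    · intro q u hu
      obtain ⟨⟨s, j⟩, ⟨a, b⟩, c⟩ := q ⟨u, hu⟩
      refine ⟨(s, j), ⟨⟨s.2, (hA s).1 a, j.2⟩, congrArg Subtype.val b⟩, fun (s', j') e => ?_⟩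
      cases c (⟨s', e.1.1⟩, ⟨j', e.1.2.2⟩) ⟨(hA _).2 e.1.2.1, Subtype.ext e.2⟩
      rfl
    · intro q u
      obtain ⟨⟨s, j⟩, ⟨a, b⟩, c⟩ := q u u.2
      refine ⟨(⟨s, a.1⟩, ⟨j, a.2.2⟩), ⟨(hA _).2 a.2.1, Subtype.ext b⟩, fun (s', j') e => ?_⟩
      have := c (s', j') ⟨⟨s'.2, (hA _).1 e.1, j'.2⟩, congrArg Subtype.val e.2⟩
      simp only [Prod.mk.injEq] at this
      obtain ⟨rfl, rfl⟩ := this
      rfl
  rw [XC, ← Set.ncard_coe_finset]
  refine (Set.ncard_congr (fun s _ => univ.filter fun x => Φ s x.1) (fun s hs => ?_) (fun s s' hs hs' e => ?_)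
    fun A hA => ?_).symm
  · exact mem_coe.2 (mem_filter.2 ⟨mem_univ _, (key _ _ (by simp)).2 (h1 s hs)⟩)
  · exact h2 s hs s' hs' fun x hx => by simpa using Finset.ext_iff.1 e ⟨x, hx⟩
  · obtain ⟨s, hs, e⟩ := h3 (fun x => ∃ hx, ⟨x, hx⟩ ∈ A) ((key A _ fun x => ⟨fun a => ⟨x.2, a⟩, fun a => a.2⟩).1 (mem_filter.1 hA).2)
    exact ⟨s, hs, Finset.ext fun x => by simp [← e x x.2, x.2]⟩

variable {V : Type} [DecidableEq V]

abbrev Nm (V : Type) := ℕ × Option V × ℕ × ℕ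
def pick (C : Cl3 V) (k : ℕ) : V × Bool := if k = 0 then C.1 else if k = 1 then C.2.1 else C.2.2
def vr (φ : List (Cl3 V)) (i : ℕ) : Option V := (φ[i / 3]?).map fun C => (pick C (i % 3)).1
def sg (φ : List (Cl3 V)) (i : ℕ) : ℕ := if ((φ[i / 3]?).map fun C => (pick C (i % 3)).2) = some true then 1 else 0
def bit (a k : ℕ) : ℕ := if k = 0 then a % 2 else if k = 1 then a / 2 % 2 else a / 4 % 2
def nx (L i : ℕ) : ℕ := if i + 1 < L then i + 1 else 0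
def cells (φ : List (Cl3 V)) : List (V × ℕ × ℕ) :=
  φ.flatMap Cl3.vars ×ˢ List.range (3 * φ.length) ×ˢ List.range 2
def uL (φ : List (Cl3 V)) : List (Nm V) := (cells φ).map (fun p => (0, some p.1, p.2)) ++
  ((cells φ).filter fun p => decide (vr φ p.2.1 ≠ some p.1)).map (fun p => (1, some p.1, p.2.1, 0)) ++
  (List.range (3 * φ.length) ×ˢ List.range 2).map fun p => (2, none, p)
def sL (φ : List (Cl3 V)) : List (Nm V) := (cells φ).map (fun p => (3, some p.1, p.2)) ++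
  ((List.range φ.length ×ˢ List.range 8).filter fun p : ℕ × ℕ =>
    decide (∃ k ∈ List.range 3, bit p.2 k = sg φ (3 * p.1 + k))).map fun p => (4, none, p)
def eL (φ : List (Cl3 V)) (d : Nm V × ℕ) : Nm V :=
  if d.1.1 = 3 then
    (if d.2 = 0 then (0, d.1.2) else if d.2 = 1 then
      (if d.1.2.2.2 = 0 then (0, d.1.2.1, d.1.2.2.1, 1) else (0, d.1.2.1, nx (3 * φ.length) d.1.2.2.1, 0))
    else if vr φ d.1.2.2.1 = d.1.2.1 then (2, none, d.1.2.2.1, 1 - d.1.2.2.2) else (1, d.1.2.1, d.1.2.2.1, 0))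
  else (2, none, 3 * d.1.2.2.1 + d.2, bit d.1.2.2.2 d.2)

theorem mem_uL {φ : List (Cl3 V)} {y} : y ∈ uL φ ↔
    (∃ x ∈ φ.flatMap Cl3.vars, ∃ i < 3 * φ.length, ∃ b < 2, (0, some x, i, b) = y) ∨
    (∃ x ∈ φ.flatMap Cl3.vars, ∃ i < 3 * φ.length, vr φ i ≠ some x ∧ (1, some x, i, 0) = y) ∨
    ∃ i < 3 * φ.length, ∃ b < 2, (2, none, i, b) = y := by
  simp only [uL, cells, List.mem_append, List.mem_map, List.mem_filter, Prod.exists, List.mem_product, List.mem_range,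
    decide_eq_true_eq, or_assoc]
  refine or_congr (by grind) (or_congr ⟨by grind, fun ⟨x, a, i, b, c⟩ => ⟨x, i, 0, by grind⟩⟩ (by grind))

omit [DecidableEq V] in
theorem mem_sL {φ : List (Cl3 V)} {y} : y ∈ sL φ ↔
    (∃ x ∈ φ.flatMap Cl3.vars, ∃ i < 3 * φ.length, ∃ b < 2, (3, some x, i, b) = y) ∨
    ∃ c < φ.length, ∃ a < 8, (∃ k < 3, bit a k = sg φ (3 * c + k)) ∧ (4, none, c, a) = y := by
  simp only [sL, cells, List.mem_append, List.mem_map, List.mem_filter, Prod.exists, List.mem_product, List.mem_range,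
    decide_eq_true_eq]
  grind

theorem bit_lt (a k : ℕ) : bit a k < 2 := by unfold bit; split_ifs <;> omega

theorem okL (φ : List (Cl3 V)) : Ok (uL φ) (sL φ) (5, none, 0, 0) (eL φ) where
  d := by simp only [mem_uL, mem_sL]; grind
  u := by simp [mem_uL]
  s := by simp [mem_sL]
  e := fun y hy j hj => by
    rw [mem_uL]
    rcases mem_sL.1 hy with ⟨x, h1, i, h2, b, h3, rfl⟩ | ⟨c, h1, a, h2, -, rfl⟩
    · unfold eL nx
      dsimp only
      split_ifs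
      all_goals first | contradiction | skip
      · exact .inl ⟨x, h1, i, h2, b, h3, rfl⟩
      · exact .inl ⟨x, h1, i, h2, 1, by omega, rfl⟩
      · exact .inl ⟨x, h1, i + 1, by omega, 0, by omega, rfl⟩
      · exact .inl ⟨x, h1, 0, by omega, 0, by omega, rfl⟩
      · exact .inr (.inr ⟨i, h2, 1 - b, by omega, rfl⟩)
      · exact .inr (.inl ⟨x, h1, i, h2, by assumption, rfl⟩)
    · exact .inr (.inr ⟨3 * c + j, by omega, bit a j, bit_lt _ _, by simp [eL]⟩)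

omit [DecidableEq V] in
theorem vr_ex (φ : List (Cl3 V)) (i : ℕ) (h : i < 3 * φ.length) : ∃ x ∈ φ.flatMap Cl3.vars, vr φ i = some x := by
  have : i / 3 < φ.length := by omega
  refine ⟨(pick φ[i / 3] (i % 3)).1, List.mem_flatMap.2 ⟨_, List.getElem_mem this, ?_⟩, by simp [vr, this]⟩
  unfold pick Cl3.vars; split_ifs <;> simp

def vl (s : Finset V) (o : Option V) : ℕ := if ∃ x ∈ s, o = some x then 1 else 0
def Ph (φ : List (Cl3 V)) (s : Finset V) (y : Nm V) : Prop :=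
  if y.1 = 3 then y.2.2.2 = vl s y.2.1 else ∀ k < 3, bit y.2.2.2 k = vl s (vr φ (3 * y.2.2.1 + k))

theorem vl_lt (s : Finset V) (o : Option V) : vl s o < 2 := by unfold vl; split_ifs <;> omega

theorem ok_iff' (φ : List (Cl3 V)) (s : Finset V) : (∀ C ∈ φ, C.ok fun x => decide (x ∈ s)) ↔
    ∀ c < φ.length, ∃ k < 3, vl s (vr φ (3 * c + k)) = sg φ (3 * c + k) := by
  rw [List.forall_mem_iff_forall_getElem]
  refine forall₂_congr fun c hc => ?_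
  have : ∀ k < 3, vl s (vr φ (3 * c + k)) = sg φ (3 * c + k) ↔ decide ((pick φ[c] k).1 ∈ s) = (pick φ[c] k).2 :=
    fun k hk => by
      simp only [vr, sg, show (3 * c + k) / 3 = c by omega, show (3 * c + k) % 3 = k by omega,
        List.getElem?_eq_getElem hc, Option.map_some, vl]
      by_cases q : (pick φ[c] k).1 ∈ s <;> cases (pick φ[c] k).2 <;> simp [q]
  rw [Cl3.ok]
  constructor
  · rintro (h | h | h)
    exacts [⟨0, by omega, (this 0 (by omega)).2 h⟩, ⟨1, by omega, (this 1 (by omega)).2 h⟩,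
      ⟨2, by omega, (this 2 (by omega)).2 h⟩]
  · rintro ⟨k, hk, h⟩
    have := (this k hk).1 h
    unfold pick at this
    split_ifs at this <;> simp [this]

theorem bits_ex (v : ℕ → ℕ) (h : ∀ k, v k < 2) : ∃ a < 8, ∀ k < 3, bit a k = v k := by
  refine ⟨v 0 + 2 * v 1 + 4 * v 2, by have := h 0; have := h 1; have := h 2; omega, fun k hk => ?_⟩
  have := h 0; have := h 1; have := h 2
  obtain rfl | rfl | rfl : k = 0 ∨ k = 1 ∨ k = 2 := by omega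
  all_goals simp [bit]; omega

theorem bits_inj {a a' : ℕ} (h : a < 8) (h' : a' < 8) (e : ∀ k < 3, bit a k = bit a' k) : a = a' := by
  have := e 0 (by omega); have := e 1 (by omega); have := e 2 (by omega)
  simp [bit] at *; omega

theorem cov1 (φ : List (Cl3 V)) (s : Finset V)
    (h : ∀ c < φ.length, ∃ k < 3, vl s (vr φ (3 * c + k)) = sg φ (3 * c + k)) : Cov (uL φ) (sL φ) (eL φ) (Ph φ s) := by
  intro u hu
  have uq : ∀ d d' : Nm V × ℕ, (d.1 ∈ sL φ ∧ Ph φ s d.1 ∧ d.2 < 3) → (d'.1 ∈ sL φ ∧ Ph φ s d'.1 ∧ d'.2 < 3) →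
      eL φ d = eL φ d' → d = d' := by
    rintro ⟨y, j⟩ ⟨y', j'⟩ ⟨a1, a2, a3⟩ ⟨b1, b2, b3⟩ e
    rcases mem_sL.1 a1 with ⟨x, h1, i, h2, b, h3, rfl⟩ | ⟨c, h1, a, h2, -, rfl⟩ <;>
      rcases mem_sL.1 b1 with ⟨x', g1, i', g2, b', g3, rfl⟩ | ⟨c', g1, a', g2, -, rfl⟩ <;>
      simp only [Ph, eL, nx, if_true, Nat.reduceEqDiff, if_false] at a2 b2 e a3 b3
    · grind
    · have := b2 j' b3
      grind
    · have := a2 j a3
      grind
    · obtain ⟨rfl, rfl⟩ : c = c' ∧ j = j' := by simp only [Prod.mk.injEq] at e; omega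
      rw [bits_inj h2 g2 fun k hk => (a2 k hk).trans (b2 k hk).symm]
  suffices ∃ d : Nm V × ℕ, (d.1 ∈ sL φ ∧ Ph φ s d.1 ∧ d.2 < 3) ∧ eL φ d = u from
    let ⟨d, a⟩ := this; ⟨d, a, fun d' b => uq _ _ b.1 a.1 (b.2.trans a.2.symm)⟩
  have ms : ∀ x ∈ φ.flatMap Cl3.vars, ∀ i < 3 * φ.length, ∀ j < 3,
      ((3, some x, i, vl s (some x)) : Nm V) ∈ sL φ ∧ Ph φ s (3, some x, i, vl s (some x)) ∧ j < 3 :=
    fun x h1 i h2 j hj => ⟨mem_sL.2 (.inl ⟨x, h1, i, h2, _, vl_lt _ _, rfl⟩), by simp [Ph], hj⟩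
  rcases mem_uL.1 hu with ⟨x, h1, i, h2, b, h3, rfl⟩ | ⟨x, h1, i, h2, h3, rfl⟩ | ⟨i, h2, b, h3, rfl⟩
  · have := vl_lt s (some x)
    by_cases q : vl s (some x) = b
    · exact ⟨(_, 0), ms x h1 i h2 0 (by omega), by simp [eL, q]⟩
    by_cases r : b = 1
    · exact ⟨(_, 1), ms x h1 i h2 1 (by omega), by simp [eL, r, show vl s (some x) = 0 by omega]⟩
    · refine ⟨(_, 1), ms x h1 (if i = 0 then 3 * φ.length - 1 else i - 1) (by split_ifs <;> omega) 1 (by omega), ?_⟩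
      simp only [eL, nx]; grind
  · exact ⟨(_, 2), ms x h1 i h2 2 (by omega), by simp [eL, h3]⟩
  · obtain ⟨x, h1, e⟩ := vr_ex φ i h2
    have := vl_lt s (some x)
    by_cases q : vl s (some x) = b
    · obtain ⟨a, a1, a2⟩ := bits_ex (fun k => vl s (vr φ (3 * (i / 3) + k))) fun _ => vl_lt _ _
      obtain ⟨k, k1, k2⟩ := h (i / 3) (by omega)
      refine ⟨((4, none, i / 3, a), i % 3), ⟨mem_sL.2 (.inr ⟨_, by omega, a, a1, ⟨k, k1, (a2 k k1).trans k2⟩, rfl⟩),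
        by simpa [Ph] using a2, by omega⟩, ?_⟩
      simp [eL, a2 (i % 3) (by omega), Nat.div_add_mod, e, q]
    · exact ⟨(_, 2), ms x h1 i h2 2 (by omega), by simp [eL, e]; omega⟩

theorem cov3 (φ : List (Cl3 V)) (P : Nm V → Prop) (h : Cov (uL φ) (sL φ) (eL φ) P) : ∃ s : Finset V,
    s ⊆ (φ.flatMap Cl3.vars).toFinset ∧ (∀ c < φ.length, ∃ k < 3, vl s (vr φ (3 * c + k)) = sg φ (3 * c + k)) ∧
      ∀ y ∈ sL φ, P y ↔ Ph φ s y := by
  classical
  have uq : ∀ y ∈ sL φ, ∀ y' ∈ sL φ, ∀ j < 3, ∀ j' < 3, P y → P y' → eL φ (y, j) = eL φ (y', j') → y = y' :=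
    fun y a y' b j c j' d p p' e =>
      congrArg Prod.fst ((h _ ((okL φ).e y a j c)).unique (y₁ := (y, j)) (y₂ := (y', j')) ⟨⟨a, p, c⟩, rfl⟩
        ⟨⟨b, p', d⟩, e.symm⟩)
  have ex : ∀ u ∈ uL φ, ∃ j < 3,
      (∃ x ∈ φ.flatMap Cl3.vars, ∃ i < 3 * φ.length, ∃ b < 2, P (3, some x, i, b) ∧ eL φ ((3, some x, i, b), j) = u) ∨
      ∃ c < φ.length, ∃ a < 8, (∃ k < 3, bit a k = sg φ (3 * c + k)) ∧ P (4, none, c, a) ∧
        (2, none, 3 * c + j, bit a j) = u := fun u hu => by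
    obtain ⟨⟨y, j⟩, ⟨a1, a2, a3⟩, e⟩ := (h u hu).exists
    rcases mem_sL.1 a1 with ⟨x, h1, i, h2, b, h3, rfl⟩ | ⟨c, h1, a, h2, h3, rfl⟩
    exacts [⟨j, a3, .inl ⟨x, h1, i, h2, b, h3, a2, e⟩⟩, ⟨j, a3, .inr ⟨c, h1, a, h2, h3, a2, e⟩⟩]
  have ms : ∀ x ∈ φ.flatMap Cl3.vars, ∀ i < 3 * φ.length, ∀ b < 2, ((3, some x, i, b) : Nm V) ∈ sL φ :=
    fun x h1 i h2 b h3 => mem_sL.2 (.inl ⟨x, h1, i, h2, b, h3, rfl⟩)
  have f1 : ∀ x ∈ φ.flatMap Cl3.vars, ∀ i < 3 * φ.length, P (3, some x, i, 0) ↔ ¬P (3, some x, i, 1) :=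
    fun x h1 i h2 => by
      have := uq _ (ms x h1 i h2 0 (by omega)) _ (ms x h1 i h2 1 (by omega)) 1 (by omega) 0 (by omega)
      obtain ⟨j, a, b⟩ := ex _ (mem_uL.2 (.inl ⟨x, h1, i, h2, 1, by omega, rfl⟩))
      simp only [eL] at this b
      grind
  have f2 : ∀ x ∈ φ.flatMap Cl3.vars, ∀ i, i + 1 < 3 * φ.length → (P (3, some x, i + 1, 0) ↔ ¬P (3, some x, i, 1)) :=
    fun x h1 i h2 => by
      have := uq _ (ms x h1 (i + 1) h2 0 (by omega)) _ (ms x h1 i (by omega) 1 (by omega)) 0 (by omega) 1 (by omega)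
      obtain ⟨j, a, b⟩ := ex _ (mem_uL.2 (.inl ⟨x, h1, i + 1, h2, 0, by omega, rfl⟩))
      simp only [eL, nx] at this b
      grind
  have f3 : ∀ x ∈ φ.flatMap Cl3.vars, ∀ i < 3 * φ.length, P (3, some x, i, 1) ↔ P (3, some x, 0, 1) :=
    fun x h1 i => by
      induction i with
      | zero => simp
      | succ i ih =>
        intro h2
        have := f1 x h1 _ h2
        have := f2 x h1 _ h2
        have := ih (by omega)
        tauto
  let s := (φ.flatMap Cl3.vars).toFinset.filter fun x => P (3, some x, 0, 1)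
  have f4 : ∀ x ∈ φ.flatMap Cl3.vars, ∀ i < 3 * φ.length, ∀ b < 2, P (3, some x, i, b) ↔ b = vl s (some x) :=
    fun x h1 i h2 b h3 => by
      have := f1 x h1 i h2
      have := f3 x h1 i h2
      have e : vl s (some x) = if P (3, some x, 0, 1) then 1 else 0 := by
        simp [vl, s, -List.mem_flatMap, h1]
      obtain rfl | rfl : b = 0 ∨ b = 1 := by omega
      all_goals grind
  have f5 : ∀ c < φ.length, ∀ a, ((4, none, c, a) : Nm V) ∈ sL φ → P (4, none, c, a) →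
      ∀ k < 3, bit a k = vl s (vr φ (3 * c + k)) := fun c h1 a h2 p k hk => by
    obtain ⟨x, x1, e⟩ := vr_ex φ (3 * c + k) (by omega)
    have := uq _ h2 _ (ms x x1 (3 * c + k) (by omega) _ (vl_lt s (some x))) k hk 2 (by omega) p
      ((f4 x x1 _ (by omega) _ (vl_lt _ _)).2 rfl)
    have b1 := bit_lt a k
    have b2 := vl_lt s (some x)
    by_contra q
    refine absurd (this ?_) (by simp)
    rw [e] at q
    simp [eL, e]; omega
  have f6 : ∀ c < φ.length, ∃ a < 8, (∃ k < 3, bit a k = sg φ (3 * c + k)) ∧ P (4, none, c, a) := fun c h1 => by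
    obtain ⟨j, a, b | ⟨c', b1, a', b2, b3, b4, b5⟩⟩ :=
      ex _ (mem_uL.2 (.inr (.inr ⟨3 * c, by omega, _, vl_lt s (vr φ (3 * c)), rfl⟩)))
    · obtain ⟨x, b1, i, b2, b, b3, b4, b5⟩ := b
      have := (f4 x b1 i b2 b b3).1 b4
      have b6 := vl_lt s (some x)
      simp only [eL, if_true] at b5
      split_ifs at b5 with c1 c2 c3 c4 <;> simp only [Prod.mk.injEq] at b5 <;> try omega
      obtain rfl : i = 3 * c := b5.2.2.1
      rw [c4] at b5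
      omega
    · obtain rfl : c' = c := by simp only [Prod.mk.injEq] at b5; omega
      exact ⟨a', b2, b3, b4⟩
  refine ⟨s, filter_subset _ _, fun c h1 => ?_, fun y hy => ?_⟩
  · obtain ⟨a, a1, ⟨k, k1, k2⟩, p⟩ := f6 c h1
    exact ⟨k, k1, (f5 c h1 a (mem_sL.2 (.inr ⟨c, h1, a, a1, ⟨k, k1, k2⟩, rfl⟩)) p k k1).symm.trans k2⟩
  · rcases mem_sL.1 hy with ⟨x, h1, i, h2, b, h3, rfl⟩ | ⟨c, h1, a, h2, h3, rfl⟩
    · simpa [Ph] using f4 x h1 i h2 b h3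
    · refine ⟨fun p => by simpa [Ph] using f5 c h1 a hy p, fun q => ?_⟩
      obtain ⟨a', a1, a2, p⟩ := f6 c h1
      have := f5 c h1 a' (mem_sL.2 (.inr ⟨c, h1, a', a1, a2, rfl⟩)) p
      simp only [Ph, Nat.reduceEqDiff, if_false] at q
      rwa [bits_inj h2 a1 fun k hk => (q k hk).trans (this k hk).symm]

theorem xc_cnt (φ : List (Cl3 V)) (h : φ ≠ []) : XC (elS (okL φ)) = Cnt3 φ := by
  refine xc_eq (okL φ) _ (Ph φ) (fun s hs => cov1 φ s ((ok_iff' φ s).1 hs.2)) (fun s hs s' hs' e => ?_) fun P hP => ?_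
  · ext x
    by_cases q : x ∈ φ.flatMap Cl3.vars
    · have := e _ (mem_sL.2 (.inl ⟨x, q, 0, by have := List.length_pos_iff.2 h; omega, 1, by omega, rfl⟩))
      simpa [Ph, vl] using this
    · exact iff_of_false (fun a => q (List.mem_toFinset.1 (hs.1 a))) fun a => q (List.mem_toFinset.1 (hs'.1 a))
  · obtain ⟨s, a, b, c⟩ := cov3 φ P hP
    exact ⟨s, ⟨a, (ok_iff' φ s).2 b⟩, c⟩

end Pool.Agent.H.MP_c3079b_lc
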