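import Pool.Agent.H.MP_c3079b_lc.I

namespace Pool.Agent.H.MP_c3079b_lc
open Pool.Agent.Lib.CX

set_option synthInstance.maxSize 4000

variable {α β : Type} [Enc α] [Enc β] [DecidableEq α]

theorem pt_a1 {ul sl : β → List α} {eN : β → α × ℕ → α} {z : α} (h1 : PT ul) (h2 : PT sl)
    (h3 : PT fun p : β × (α × ℕ) => eN p.1 p.2) :
    PT fun p : β × ℕ × ℕ => gr (ul p.1) (sl p.1) z (eN p.1) p.2.1 p.2.2 := by
  have h4 : PT fun p : (β × ℕ × ℕ) × (α × ℕ) => eN p.1.1 p.2 :=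
    (h3.comp (g := fun p : (β × ℕ × ℕ) × (α × ℕ) => (p.1.1, p.2)) (by fun_prop) :)
  exact pt_gr (ul := fun p : β × ℕ × ℕ => ul p.1) (sl := fun p => sl p.1) (eN := fun p => eN p.1) (i := fun p => p.2.1)
    (t := fun p => p.2.2) z (by fun_prop) (by fun_prop) h4 (by fun_prop) (by fun_prop)

theorem pt_a2 {ul sl : β → List α} (h1 : PT ul) (h2 : PT sl) : PT fun b => qs (ul b) (sl b) :=
  (pt_qs.comp (h1.pair h2)).congr fun _ => rfl

theorem pt_a3 {ul sl : β → List α} (h1 : PT ul) (h2 : PT sl) : PT fun p : β × List ℕ => post (ul p.1) (sl p.1) p.2 :=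
  (pt_post.comp (g := fun p : β × List ℕ => ((ul p.1, sl p.1), p.2)) (by fun_prop)).congr fun _ => rfl

def qG {ul sl : List α} {eN : α × ℕ → α} {z : α} (h : Ok ul sl z eN) (p : ℕ × ℕ) : {a : Gr // Valid a} :=
  ⟨gr ul sl z eN p.1 p.2, gr_valid h p.1 p.2⟩

theorem pt_a4 {ul sl : β → List α} {eN : β → α × ℕ → α} {z : α} (h1 : PT ul) (h2 : PT sl)
    (h3 : PT fun p : β × (α × ℕ) => eN p.1 p.2) (ok : ∀ b, Ok (ul b) (sl b) z (eN b)) :
    PT fun b => (qs (ul b) (sl b)).map (qG (ok b)) := by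
  have h4 : PT fun p : β × ℕ × ℕ => qG (ok p.1) p.2 := (pt_a1 h1 h2 h3).cast fun _ => rfl
  exact PT.map (F := fun b => qG (ok b)) h4 (pt_a2 h1 h2)

theorem main : SharpPHard fun a : {a : Gr // Valid a} => Uni a.1 := by
  refine SharpPHard.of_cnt3 _ _ (pt_a4 pt_uL pt_sL pt_eL okL) (pt_a3 pt_uL pt_sL) fun φ h => ?_
  rw [← xc_cnt φ h, ← post_eq, List.map_map]
  rfl

end Pool.Agent.H.MP_c3079b_lc
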